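import Pool.Agent.W2helper78.WH.Lower

/-!
# Logarithmic cutoff functions and radial functions
-/

set_option autoImplicit false

open MeasureTheory Set Filter Topology Metric
open scoped ContDiff

namespace W2helper78.WH

open Q94.NB Q94.NB.S98

variable {d : ℕ}

/-- the profile of the cutoff -/
noncomputable def BB (t : ℝ) : ℝ := Real.smoothTransition (2 - t)

/-- its derivative -/
noncomputable def BB' (t : ℝ) : ℝ := deriv BB t

lemma BB_smooth : ContDiff ℝ ∞ BB := by
  unfold BB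
  exact Real.smoothTransition.contDiff.comp (by fun_prop)

lemma BB_deriv (t : ℝ) : HasDerivAt BB (BB' t) t :=
  (BB_smooth.differentiable (by simp) t).hasDerivAt

lemma BB'_cont : Continuous BB' := BB_smooth.continuous_deriv (by simp)

lemma BB_nonneg (t : ℝ) : 0 ≤ BB t := Real.smoothTransition.nonneg _

lemma BB_le_one (t : ℝ) : BB t ≤ 1 := Real.smoothTransition.le_one _

lemma BB_one {t : ℝ} (h : t ≤ 1) : BB t = 1 := Real.smoothTransition.one_of_one_le (by linarith)

lemma BB_zero {t : ℝ} (h : 2 ≤ t) : BB t = 0 := Real.smoothTransition.zero_of_nonpos (by linarith)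

lemma BB'_zero_lt {t : ℝ} (h : t < 1) : BB' t = 0 := by
  have : BB =ᶠ[𝓝 t] fun _ => 1 := by
    filter_upwards [Iio_mem_nhds h] with x hx
    exact BB_one (le_of_lt hx)
  rw [BB', this.deriv_eq]
  simp

lemma BB'_zero_gt {t : ℝ} (h : 2 < t) : BB' t = 0 := by
  have : BB =ᶠ[𝓝 t] fun _ => 0 := by
    filter_upwards [Ioi_mem_nhds h] with x hx
    exact BB_zero (le_of_lt hx)
  rw [BB', this.deriv_eq]
  simp

lemma exists_KB : ∃ K : ℝ, 0 ≤ K ∧ ∀ t, |BB' t| ≤ K := by
  obtain ⟨K, hK⟩ := (isCompact_Icc (a := (1 : ℝ)) (b := 2)).exists_bound_of_continuousOn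
    BB'_cont.continuousOn
  refine ⟨max K 0, le_max_right _ _, fun t => ?_⟩
  by_cases h1 : t < 1
  · rw [BB'_zero_lt h1, abs_zero]; exact le_max_right _ _
  by_cases h2 : 2 < t
  · rw [BB'_zero_gt h2, abs_zero]; exact le_max_right _ _
  exact (hK t ⟨not_lt.1 h1, not_lt.1 h2⟩).trans (le_max_left _ _)

/-- a bound for the derivative of the profile -/
noncomputable def KB : ℝ := exists_KB.choose

lemma KB_nonneg : 0 ≤ KB := exists_KB.choose_spec.1

lemma BB'_le (t : ℝ) : |BB' t| ≤ KB := exists_KB.choose_spec.2 t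

/-- the cutoff as a function of `q = |x|^2` -/
noncomputable def bq (l q : ℝ) : ℝ := BB (Real.log (1 + q) / l)

/-- its derivative -/
noncomputable def bq' (l q : ℝ) : ℝ := BB' (Real.log (1 + q) / l) * ((1 + q)⁻¹ / l)

lemma bq_deriv (l : ℝ) {q : ℝ} (hq : 0 ≤ q) : HasDerivAt (bq l) (bq' l q) q := by
  have h1 : HasDerivAt (fun q : ℝ => Real.log (1 + q)) ((1 + q)⁻¹) q := by
    have := ((hasDerivAt_id q).const_add 1).log (by simp; linarith)
    simpa using this
  exact (BB_deriv _).comp q (h1.div_const l)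

lemma bq_zero {l q : ℝ} (hl : 0 < l) (hq : Real.exp (2 * l) ≤ 1 + q) : bq l q = 0 := by
  apply BB_zero
  rw [le_div_iff₀ hl]
  rw [Real.le_log_iff_exp_le (lt_of_lt_of_le (Real.exp_pos _) hq)]
  exact hq

lemma bq_one {l q : ℝ} (hl : 0 < l) (hq0 : 0 ≤ q) (hq : 1 + q ≤ Real.exp l) : bq l q = 1 := by
  apply BB_one
  rw [div_le_iff₀ hl, Real.log_le_iff_le_exp (by linarith), one_mul]
  exact hq

lemma bq'_zero {l q : ℝ} (hl : 0 < l) (hq0 : 0 ≤ q) (hq : 1 + q < Real.exp l) : bq' l q = 0 := by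
  unfold bq'
  rw [BB'_zero_lt, zero_mul]
  rw [div_lt_iff₀ hl, Real.log_lt_iff_lt_exp (by linarith), one_mul]
  exact hq

lemma bq_nonneg (l q : ℝ) : 0 ≤ bq l q := BB_nonneg _

lemma bq_le_one (l q : ℝ) : bq l q ≤ 1 := BB_le_one _

lemma bq_sq_le (l q : ℝ) : bq l q ^ 2 ≤ 1 := pow_le_one₀ (bq_nonneg _ _) (bq_le_one _ _)

lemma bq'_abs {l q : ℝ} (hl : 0 < l) (hq : 0 ≤ q) : |bq' l q| ≤ KB / (l * (1 + q)) := by
  unfold bq'
  rw [abs_mul]
  have h1 : |(1 + q)⁻¹ / l| = 1 / (l * (1 + q)) := by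
    rw [abs_of_nonneg (by positivity)]
    field_simp
  rw [h1]
  calc |BB' (Real.log (1 + q) / l)| * (1 / (l * (1 + q))) ≤ KB * (1 / (l * (1 + q))) :=
        mul_le_mul_of_nonneg_right (BB'_le _) (by positivity)
    _ = _ := by ring

/-- gradient of a function of `|x|^2` -/
lemma grad_sq {f : ℝ → ℝ} {f' : ℝ} {x : E d} (h : HasDerivAt f f' (‖x‖ ^ 2)) :
    HasGradientAt (fun x : E d => f (‖x‖ ^ 2)) ((2 * f') • x) x := by
  have h1 := (hasStrictFDerivAt_norm_sq x).hasFDerivAt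
  have h2 := h.hasFDerivAt.comp x h1
  rw [hasGradientAt_iff_hasFDerivAt]
  refine h2.congr_fderiv ?_
  ext v
  simp [InnerProductSpace.toDual_apply_apply]
  ring

lemma smooth_bump (l : ℝ) : ContDiff ℝ ∞ (fun x : E d => bq l (‖x‖ ^ 2)) := by
  unfold bq
  refine BB_smooth.comp ?_
  refine ContDiff.div_const ?_ _
  refine ContDiff.log ?_ fun x => ?_
  · exact contDiff_const.add (contDiff_norm_sq ℝ)
  · positivity

lemma smooth_pow (p : ℝ) : ContDiff ℝ ∞ (fun x : E d => (1 + ‖x‖ ^ 2) ^ p) := by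
  refine ContDiff.rpow_const_of_ne ?_ fun x => ?_
  · exact contDiff_const.add (contDiff_norm_sq ℝ)
  · positivity

lemma cs_bump {l : ℝ} (hl : 0 < l) : HasCompactSupport (fun x : E d => bq l (‖x‖ ^ 2)) := by
  refine HasCompactSupport.of_support_subset_isCompact
    (isCompact_closedBall (0 : E d) (Real.exp l)) ?_
  intro x hx
  rw [mem_closedBall, dist_zero_right]
  by_contra h
  refine hx (bq_zero hl ?_)
  have h1 : Real.exp l < ‖x‖ := not_le.1 h
  have h2 : Real.exp l ^ 2 ≤ ‖x‖ ^ 2 := pow_le_pow_left₀ (Real.exp_pos _).le h1.le 2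
  rw [← Real.exp_nat_mul] at h2
  push_cast at h2
  linarith

/-- integrals of radial functions -/
lemma radial (hd : 1 ≤ d) {R : ℝ} (hR : 0 ≤ R) {g : ℝ → ℝ} (hg : Continuous g)
    (h0 : ∀ r, R ≤ r → g r = 0) :
    ∫ x : E d, g ‖x‖ = (sg d).real univ * ∫ r in (0 : ℝ)..R, r ^ (d - 1) * g r := by
  rw [polC hd R (G := fun x : E d => g ‖x‖) (hg.comp continuous_norm) (fun x hx => h0 _ hx)]
  have cM : Continuous fun z : ℝ × sphere (0 : E d) 1 =>
      z.1 ^ (d - 1) * g ‖z.1 • (z.2 : E d)‖ :=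
    (continuous_fst.pow _).mul (hg.comp smul_cont.norm)
  rw [fubR hR cM, ← intervalIntegral.integral_const_mul]
  refine intervalIntegral.integral_congr fun r hr => ?_
  rw [uIcc_of_le hR] at hr
  have fin := sg_fin d
  show ∫ θ : sphere (0 : E d) 1, r ^ (d - 1) * g ‖r • (θ : E d)‖ ∂(sg d) = _
  simp_rw [norm_rt hr.1]
  rw [integral_const, smul_eq_mul]

/-- upper bound for the logarithmic mass -/
lemma mass_le {n : ℕ} (hn : 1 ≤ n) {l : ℝ} (hl : 0 ≤ l) :
    ∫ r in (0 : ℝ)..Real.exp l, r ^ (n - 1) * ww (-(n : ℝ) / 2) r ≤ 1 + l := by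
  have c0 := ww_cont (-(n : ℝ) / 2)
  have hn0 : (0 : ℝ) ≤ n := Nat.cast_nonneg n
  have h1l : (1 : ℝ) ≤ Real.exp l := Real.one_le_exp hl
  have ii : ∀ a b : ℝ, IntervalIntegrable (fun r : ℝ => r ^ (n - 1) * ww (-(n : ℝ) / 2) r)
      volume a b := fun a b => by
    apply Continuous.intervalIntegrable; fun_prop
  rw [← intervalIntegral.integral_add_adjacent_intervals (ii 0 1) (ii 1 _)]
  have a1 : ∫ r in (0 : ℝ)..1, r ^ (n - 1) * ww (-(n : ℝ) / 2) r ≤ 1 := by
    have := intervalIntegral.integral_mono_on (a := (0 : ℝ)) (b := 1) zero_le_one (ii 0 1)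
      (intervalIntegrable_const (c := (1 : ℝ))) (fun r hr => by
        have b1 : r ^ (n - 1) ≤ 1 := pow_le_one₀ hr.1 hr.2
        have b2 : ww (-(n : ℝ) / 2) r ≤ 1 := by
          unfold ww
          exact Real.rpow_le_one_of_one_le_of_nonpos (by nlinarith [sq_nonneg r])
            (by linarith)
        calc r ^ (n - 1) * ww (-(n : ℝ) / 2) r ≤ 1 * 1 :=
              mul_le_mul b1 b2 (ww_pos _ _).le zero_le_one
          _ = 1 := one_mul _)
    simpa using this
  have a2 : ∫ r in (1 : ℝ)..Real.exp l, r ^ (n - 1) * ww (-(n : ℝ) / 2) r ≤ l := by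
    have i2 : IntervalIntegrable (fun r : ℝ => r⁻¹) volume 1 (Real.exp l) := by
      refine intervalIntegral.intervalIntegrable_inv (fun x hx => ?_) continuousOn_id
      rw [uIcc_of_le h1l] at hx
      have : 0 < x := lt_of_lt_of_le one_pos hx.1
      exact this.ne'
    have := intervalIntegral.integral_mono_on h1l (ii 1 _) i2 (fun r hr => by
        have hr0 : 0 < r := lt_of_lt_of_le one_pos hr.1
        have b2 : ww (-(n : ℝ) / 2) r ≤ (r ^ n)⁻¹ := by
          unfold ww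
          have : (1 + r ^ 2) ^ (-(n : ℝ) / 2) ≤ (r ^ 2) ^ (-(n : ℝ) / 2) :=
            Real.rpow_le_rpow_of_nonpos (by positivity) (by linarith) (by linarith)
          refine this.trans (le_of_eq ?_)
          rw [← Real.rpow_natCast r 2, ← Real.rpow_mul hr0.le, ← Real.rpow_natCast r n,
            ← Real.rpow_neg hr0.le]
          congr 1
          push_cast
          ring
        calc r ^ (n - 1) * ww (-(n : ℝ) / 2) r ≤ r ^ (n - 1) * (r ^ n)⁻¹ :=
              mul_le_mul_of_nonneg_left b2 (pow_nonneg hr0.le _)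
          _ = r⁻¹ := by
            obtain ⟨k, rfl⟩ : ∃ k, n = k + 1 := ⟨n - 1, by omega⟩
            rw [Nat.add_sub_cancel, pow_succ]
            field_simp)
    rw [integral_inv_of_pos one_pos (Real.exp_pos l)] at this
    simpa using this
  linarith

/-- lower bound for the logarithmic mass -/
lemma le_mass {n : ℕ} (hn : 1 ≤ n) {l : ℝ} (hl : 2 ≤ l) :
    (2 : ℝ) ^ (-(n : ℝ) / 2) * (l / 2 - 1) ≤
      ∫ r in (1 : ℝ)..Real.exp (l / 2 - 1), r ^ (n - 1) * ww (-(n : ℝ) / 2) r := by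
  have c0 := ww_cont (-(n : ℝ) / 2)
  have hn0 : (0 : ℝ) ≤ n := Nat.cast_nonneg n
  have h1l : (1 : ℝ) ≤ Real.exp (l / 2 - 1) := Real.one_le_exp (by linarith)
  have i2 : IntervalIntegrable (fun r : ℝ => (2 : ℝ) ^ (-(n : ℝ) / 2) * r⁻¹) volume 1
      (Real.exp (l / 2 - 1)) := by
    refine (intervalIntegral.intervalIntegrable_inv (fun x hx => ?_) continuousOn_id).const_mul _
    rw [uIcc_of_le h1l] at hx
    have : 0 < x := lt_of_lt_of_le one_pos hx.1
    exact this.ne'
  have := intervalIntegral.integral_mono_on h1l i2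
    (by apply Continuous.intervalIntegrable; fun_prop :
      IntervalIntegrable (fun r : ℝ => r ^ (n - 1) * ww (-(n : ℝ) / 2) r) volume 1
        (Real.exp (l / 2 - 1))) (fun r hr => by
      have hr0 : 0 < r := lt_of_lt_of_le one_pos hr.1
      have b2 : (2 : ℝ) ^ (-(n : ℝ) / 2) * (r ^ n)⁻¹ ≤ ww (-(n : ℝ) / 2) r := by
        unfold ww
        have : (2 * r ^ 2) ^ (-(n : ℝ) / 2) ≤ (1 + r ^ 2) ^ (-(n : ℝ) / 2) :=
          Real.rpow_le_rpow_of_nonpos (by positivity) (by nlinarith [hr.1]) (by linarith)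
        refine le_trans (le_of_eq ?_) this
        rw [Real.mul_rpow (by norm_num) (by positivity), ← Real.rpow_natCast r 2,
          ← Real.rpow_mul hr0.le, ← Real.rpow_natCast r n, ← Real.rpow_neg hr0.le]
        congr 2
        push_cast
        ring
      calc (2 : ℝ) ^ (-(n : ℝ) / 2) * r⁻¹ = r ^ (n - 1) * ((2 : ℝ) ^ (-(n : ℝ) / 2) * (r ^ n)⁻¹) := by
            obtain ⟨k, rfl⟩ : ∃ k, n = k + 1 := ⟨n - 1, by omega⟩
            rw [Nat.add_sub_cancel, pow_succ]
            field_simp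
        _ ≤ _ := mul_le_mul_of_nonneg_left b2 (pow_nonneg hr0.le _))
  rw [intervalIntegral.integral_const_mul, integral_inv_of_pos one_pos (Real.exp_pos _)] at this
  simpa using this

end W2helper78.WH
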