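import Pool.Agent.W2helper78.WH.Upper

/-!
# The best constant
-/

set_option autoImplicit false

open MeasureTheory Set Filter Topology Metric
open scoped ContDiff

namespace W2helper78.WH

open Q94.NB Q94.NB.S98

variable {d : ℕ}

/-- choice of the cutoff parameter -/
lemma choose_l {δ ε K : ℝ} (hδ : 0 < δ) (hε : 0 < ε) :
    ∃ l : ℝ, 1 ≤ l ∧ K / l ≤ ε * δ := by
  refine ⟨max 1 (K / (ε * δ)), le_max_left _ _, ?_⟩
  have h1 : 0 < max 1 (K / (ε * δ)) := lt_of_lt_of_le one_pos (le_max_left _ _)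
  rw [div_le_iff₀ h1]
  have h2 : K / (ε * δ) ≤ max 1 (K / (ε * δ)) := le_max_right _ _
  rw [div_le_iff₀ (by positivity)] at h2
  linarith

lemma err_small {S c l : ℝ} (hS : 0 ≤ S) (hl : 1 ≤ l) :
    S * (4 * (KB / l) ^ 2 * (1 + c) ^ 2 * (1 + l)) ≤ (S * (8 * KB ^ 2 * (1 + c) ^ 2)) / l := by
  have hl0 : 0 < l := by linarith
  rw [le_div_iff₀ hl0]
  have h1 : S * (4 * (KB / l) ^ 2 * (1 + c) ^ 2 * (1 + l)) * l =
      S * (4 * KB ^ 2 * (1 + c) ^ 2) * ((1 + l) / l) := by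
    field_simp
  have h2 : (1 + l) / l ≤ 2 := by
    rw [div_le_iff₀ hl0]; linarith
  rw [h1]
  have h3 := mul_le_mul_of_nonneg_left h2 (by positivity : 0 ≤ S * (4 * KB ^ 2 * (1 + c) ^ 2))
  linarith

lemma I0_pos {F : ℝ → ℝ} {k : ℕ} (hF : Continuous F) (h0 : ∀ r, 0 ≤ F r)
    (h1 : ∃ r ∈ Ioc (0 : ℝ) 1, 0 < F r) :
    0 < ∫ r in (0 : ℝ)..1, r ^ k * F r := by
  obtain ⟨r, hr, hr1⟩ := h1
  refine intervalIntegral.integral_pos one_pos (by fun_prop) (fun x hx => ?_) ⟨r, ⟨hr.1.le, hr.2⟩, ?_⟩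
  · exact mul_nonneg (pow_nonneg hx.1.le _) (h0 x)
  · exact mul_pos (pow_pos hr.1 _) hr1

/-- large powers of logarithms -/
lemma big_l {S c K : ℝ} (hS : 0 < S) (hc : 0 < c) : ∃ l : ℝ, 2 ≤ l ∧ 1 ≤ l ∧
    0 < S * (c * (l / 2 - 1)) ∧ K ≤ S * (c * (l / 2 - 1)) := by
  refine ⟨2 * (|K| / (S * c) + 2), ?_, ?_, ?_, ?_⟩
  · have : 0 ≤ |K| / (S * c) := by positivity
    linarith
  · have : 0 ≤ |K| / (S * c) := by positivity
    linarith
  · have : 0 ≤ |K| / (S * c) := by positivity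
    have h2 : 2 * (|K| / (S * c) + 2) / 2 - 1 = |K| / (S * c) + 1 := by ring
    rw [h2]
    positivity
  · have h2 : S * (c * (2 * (|K| / (S * c) + 2) / 2 - 1)) = |K| + S * c := by
      field_simp
      ring
    rw [h2]
    have := le_abs_self K
    have : 0 < S * c := by positivity
    linarith

lemma errA {S κ l : ℝ} (hS : 0 ≤ S) (hl : 1 ≤ l) :
    S * ((4 * |κ| * (KB / l) + 4 * (KB / l) ^ 2) * (1 + l)) ≤
      S * (8 * |κ| * KB + 8 * KB ^ 2) := by
  have hl0 : 0 < l := by linarith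
  have hK := KB_nonneg
  refine mul_le_mul_of_nonneg_left ?_ hS
  have h1 : KB / l * (1 + l) ≤ 2 * KB := by
    rw [div_mul_eq_mul_div, div_le_iff₀ hl0]
    nlinarith
  have h2 : KB / l ≤ KB := div_le_self hK hl
  have h3 : 0 ≤ KB / l := by positivity
  have h4 : (KB / l) * (KB / l * (1 + l)) ≤ KB * (2 * KB) :=
    mul_le_mul h2 h1 (by positivity) hK
  have h5 := mul_le_mul_of_nonneg_left h1 (abs_nonneg κ)
  nlinarith

/-- Regime of the essential spectrum. -/
theorem approxA (hd : 1 ≤ d) {α κ : ℝ} (hκ : κ = (d - 2 + 2 * α) / 2) :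
    ∀ ε : ℝ, 0 < ε → ∃ u : E d → ℝ, ContDiff ℝ ∞ u ∧
      HasCompactSupport u ∧ 0 < DD α u ∧ NN α u ≤ (κ ^ 2 + ε) * DD α u := by
  intro ε hε
  have hS := sgpos hd
  obtain ⟨l, hl2, hl1, hp, hK⟩ := big_l (S := (sg d).real univ) (c := (2 : ℝ) ^ (-(d : ℝ) / 2))
    (K := ((sg d).real univ * (8 * |κ| * KB + 8 * KB ^ 2)) / ε) hS (by positivity)
  have hl0 : 0 < l := by linarith
  have hN := caseA_N hd hκ hl0
  have hD := caseA_D hd hκ hl2
  have hE := errA (κ := κ) hS.le hl1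
  refine ⟨_, tf_smooth (prof_pow d (κ / 2)) l, tf_cs hl0, lt_of_lt_of_le hp hD, ?_⟩
  refine hN.trans ?_
  rw [div_le_iff₀ hε] at hK
  have := mul_le_mul_of_nonneg_right hD hε.le
  linarith

theorem approxA' (hd : 1 ≤ d) {α κ : ℝ} (hκ : κ = (d - 2 + 2 * α) / 2) (hκ0 : κ < 0) :
    Approx d α (κ ^ 2) := by
  intro ε hε
  have hS := sgpos hd
  obtain ⟨l, hl2, hl1, hp, hK⟩ := big_l (S := (sg d).real univ) (c := (2 : ℝ) ^ (-(d : ℝ) / 2))
    (K := ((sg d).real univ * (8 * |κ| * KB + 8 * KB ^ 2) +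
      ((sg d).real univ * (1 + 1 / (-κ))) ^ 2) / ε) hS (by positivity)
  have hl0 : 0 < l := by linarith
  have hK0 := KB_nonneg
  have hN := caseA_N hd hκ hl0
  have hD := caseA_D hd hκ hl2
  have hM := caseA_M hd hκ hκ0 hl0
  have hE := errA (κ := κ) hS.le hl1
  have hM2 := pow_le_pow_left₀ (abs_nonneg _) hM 2
  rw [sq_abs] at hM2
  rw [div_le_iff₀ hε] at hK
  have h1 := mul_le_mul_of_nonneg_right hD hε.le
  have h2 : 0 ≤ (sg d).real univ * (8 * |κ| * KB + 8 * KB ^ 2) := by positivity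
  have h3 := sq_nonneg ((sg d).real univ * (1 + 1 / (-κ)))
  refine ⟨_, tf_smooth (prof_pow d (κ / 2)) l, tf_cs hl0, lt_of_lt_of_le hp hD, ?_, ?_⟩
  · refine hN.trans ?_
    linarith
  · linarith

theorem approxB (hd : 1 ≤ d) {α : ℝ} (hα : 1 + (d : ℝ) / 2 ≤ α) :
    ∀ ε : ℝ, 0 < ε → ∃ u : E d → ℝ, ContDiff ℝ ∞ u ∧
      HasCompactSupport u ∧ 0 < DD α u ∧ NN α u ≤ (2 * d * (α - 1) + ε) * DD α u := by
  intro ε hε
  have hS := sgpos hd
  have cα1 := ww_cont (α - 1)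
  have cp := ww_cont (-(α - 1))
  have hI : 0 < ∫ r in (0 : ℝ)..1, r ^ (d - 1) * (ww (α - 1) r * ww (-(α - 1)) r ^ 2) :=
    I0_pos (by fun_prop) (fun r => mul_nonneg (ww_pos _ _).le (sq_nonneg _))
      ⟨1, by simp, mul_pos (ww_pos _ _) (pow_pos (ww_pos _ _) _)⟩
  obtain ⟨l, hl1, hK⟩ := choose_l (ε := ε) (K := (sg d).real univ * (8 * KB ^ 2 * (1 + 0) ^ 2))
    (mul_pos hS hI) hε
  have hl0 : 0 < l := by linarith
  have hN := caseB hd hα hl0
  have hD := caseB_D (α := α) (p := α - 1) hd hl1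
  have hE := err_small (c := 0) hS.le hl1
  refine ⟨_, tf_smooth (prof_pow d (α - 1)) l, tf_cs hl0, lt_of_lt_of_le (mul_pos hS hI) hD, ?_⟩
  refine hN.trans ?_
  have := mul_le_mul_of_nonneg_left hD hε.le
  have e : (sg d).real univ * (4 * (KB / l) ^ 2 * (1 + 0) ^ 2 * (1 + l)) =
    (sg d).real univ * (4 * (KB / l) ^ 2 * (1 + l)) := by ring
  rw [e] at hE
  linarith

theorem approxD (hd : 1 ≤ d) {α L : ℝ} (hα : α ≤ -((d : ℝ) + 2) / 2) (hL : L = -4 * α - 2 * d) :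
    Approx d α L := by
  intro ε hε
  have hS := sgpos hd
  have hK0 := KB_nonneg
  have hd1 : (1 : ℝ) ≤ d := by exact_mod_cast hd
  have hL0 : 0 < L := by rw [hL]; linarith
  set c : ℝ := 2 * d / L with hc
  have hLc : L * c = 2 * d := by rw [hc]; field_simp
  have hc0 : 0 ≤ c := by positivity
  have cα1 := ww_cont (α - 1)
  have hI : 0 < ∫ r in (0 : ℝ)..1, r ^ (d - 1) * (ww (α - 1) r * (r ^ 2 - c) ^ 2) := by
    refine I0_pos (by fun_prop) (fun r => mul_nonneg (ww_pos _ _).le (sq_nonneg _)) ?_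
    by_cases h : c = 1
    · refine ⟨1 / 2, by constructor <;> norm_num, mul_pos (ww_pos _ _) ?_⟩
      rw [h]; norm_num
    · refine ⟨1, by simp, mul_pos (ww_pos _ _) ?_⟩
      have : (1 : ℝ) ^ 2 - c ≠ 0 := by
        rw [one_pow, sub_ne_zero]
        exact fun h' => h h'.symm
      positivity
  set S := (sg d).real univ
  obtain ⟨l, hl1, hK⟩ := choose_l (ε := ε) (K := S * (8 * KB ^ 2 * (1 + c) ^ 2) +
    (S * (4 / L * KB)) ^ 2) (mul_pos hS hI) hε
  have hl0 : 0 < l := by linarith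
  have hN := caseD_N hd hα hL hLc hc0 hl0
  have hD := caseD_D (α := α) (c := c) hd hl1
  have hM := caseD_M hd hα hL hLc hL0 hl0
  have hE := err_small (c := c) hS.le hl1
  rw [add_div] at hK
  have h2 : 0 ≤ S * (8 * KB ^ 2 * (1 + c) ^ 2) / l := by positivity
  have h3 : 0 ≤ (S * (4 / L * KB)) ^ 2 / l := by positivity
  have h4 := mul_le_mul_of_nonneg_left hD hε.le
  refine ⟨_, tf_smooth (prof_quad d c) l, tf_cs hl0, lt_of_lt_of_le (mul_pos hS hI) hD, ?_, ?_⟩
  · refine hN.trans ?_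
    linarith
  · have h5 : Real.exp (-l) * (1 + l) ≤ 1 := by
      have h6 : l + 1 ≤ Real.exp l := Real.add_one_le_exp l
      rw [Real.exp_neg, inv_mul_le_iff₀ (Real.exp_pos l)]
      linarith
    have h7 : |MM α (tf d (fun q => q - c) l)| ≤ S * (4 / L * KB) / l := by
      refine hM.trans ?_
      have h8 : S * (4 / L * (KB / l * Real.exp (-l) * (1 + l))) =
        S * (4 / L * KB) / l * (Real.exp (-l) * (1 + l)) := by ring
      rw [h8]
      exact mul_le_of_le_one_right (by positivity) h5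
    have h9 := pow_le_pow_left₀ (abs_nonneg _) h7 2
    rw [sq_abs] at h9
    have h10 : (S * (4 / L * KB) / l) ^ 2 ≤ (S * (4 / L * KB)) ^ 2 / l := by
      rw [div_pow]
      refine div_le_div_of_nonneg_left (sq_nonneg _) hl0 ?_
      nlinarith
    linarith

/-- Upper bound from the coordinate functions. -/
theorem upperC (hd : 1 ≤ d) {α L' : ℝ} (hα : α ≤ -(d : ℝ) / 2)
    (h : ∀ v : E d → ℝ, ContDiff ℝ ∞ v → HasCompactSupport v → MM α v = 0 →
      L' * DD α v ≤ NN α v) : L' ≤ -(2 * α) := by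
  have hS := sgpos hd
  have cα1 := ww_cont (α - 1)
  have hI : 0 < ∫ r in (0 : ℝ)..1, r ^ (d - 1) * (ww (α - 1) r * r ^ 2) :=
    I0_pos (by fun_prop) (fun r => mul_nonneg (ww_pos _ _).le (sq_nonneg _))
      ⟨1, by simp, mul_pos (ww_pos _ _) (by positivity)⟩
  refine le_of_forall_pos_le_add fun ε hε => ?_
  obtain ⟨l, hl1, hK⟩ := choose_l (ε := ε) (K := (sg d).real univ * (8 * KB ^ 2 * (1 + 0) ^ 2))
    (mul_pos hS hI) hε
  have hl0 : 0 < l := by linarith
  have hN := caseC_N hd hα hl0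
  have hD := caseC_D (α := α) hd hl1
  have hE := err_small (c := 0) hS.le hl1
  have e : (sg d).real univ * (4 * (KB / l) ^ 2 * (1 + 0) ^ 2 * (1 + l)) =
    (sg d).real univ * (4 * (KB / l) ^ 2 * (1 + l)) := by ring
  rw [e] at hE
  have h1 : L' * ∑ i, DD α (tc d i l) ≤ ∑ i, NN α (tc d i l) := by
    rw [Finset.mul_sum]
    exact Finset.sum_le_sum fun i _ => h _ (tc_smooth i l) (tc_cs i hl0) (tc_M α i l)
  have h2 := mul_le_mul_of_nonneg_left hD hε.le
  refine le_of_mul_le_mul_right ?_ (lt_of_lt_of_le (mul_pos hS hI) hD)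
  linarith

/-- the value of the best constant -/
noncomputable def val (d : ℕ) (α : ℝ) : ℝ :=
  if α < -(d : ℝ) then -2 * α
  else if α < -((d : ℝ) + 2) / 2 then -4 * α - 2 * d
  else if α ≤ 1 + (d : ℝ) / 2 then (d + 2 * α - 2) ^ 2 / 4
  else 2 * d * (α - 1)

theorem lower_all (hd : 3 ≤ d) {α : ℝ} (hα : α ≠ -((d : ℝ) - 2) / 2) {u : E d → ℝ}
    (hu : ContDiff ℝ ∞ u) (hc : HasCompactSupport u)
    (hm : α < -((d : ℝ) - 2) / 2 → MM α u = 0) : val d α * DD α u ≤ NN α u := by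
  have hu1 : ContDiff ℝ 1 u := hu.of_le (by norm_cast)
  have hd3 : (3 : ℝ) ≤ d := by exact_mod_cast hd
  unfold val
  split_ifs with h1 h2 h3
  · refine lower_mean hd (q := α) (by linarith) (by linarith) ?_ ?_ hu1 hc (hm (by linarith))
    · nlinarith
    · nlinarith
  · refine lower_mean hd (q := α) (by linarith) (by linarith) ?_ ?_ hu1 hc (hm (by linarith))
    · nlinarith
    · nlinarith
  · rcases lt_or_gt_of_ne hα with h4 | h4
    · refine lower_mean hd (q := -((d : ℝ) - (d - 2 + 2 * α) / 2) / 2) (by positivity) ?_ ?_ ?_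
        hu1 hc (hm h4)
      · nlinarith
      · have a1 : 0 ≤ -((d - 2 + 2 * α) / 2) := by linarith
        have a2 : -((d - 2 + 2 * α) / 2) ≤ 2 := by
          have := not_lt.1 h2
          linarith
        nlinarith [mul_nonneg a1 (by linarith : (0:ℝ) ≤ 2 + (d - 2 + 2 * α) / 2)]
      · nlinarith
    · refine lower_free (by omega) (β := (d + 2 * α - 2) / 4) ?_ ?_ hu1 hc
      · nlinarith
      · nlinarith
  · refine lower_free (by omega) (β := α - 1) ?_ ?_ hu1 hc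
    · nlinarith
    · nlinarith

theorem upper_all (hd : 3 ≤ d) {α L' : ℝ} (hα : α ≠ -((d : ℝ) - 2) / 2)
    (h : ∀ v : E d → ℝ, ContDiff ℝ ∞ v → HasCompactSupport v →
      (α < -((d : ℝ) - 2) / 2 → MM α v = 0) → L' * DD α v ≤ NN α v) : L' ≤ val d α := by
  have hd1 : 1 ≤ d := by omega
  have hd3 : (3 : ℝ) ≤ d := by exact_mod_cast hd
  unfold val
  split_ifs with h1 h2 h3
  · have := upperC hd1 (α := α) (L' := L') (by linarith) fun v hv hcv hmv => h v hv hcv fun _ => hmv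
    linarith
  · exact upper_mean (by linarith) (approxD hd1 h2.le rfl) fun v hv hcv hmv => h v hv hcv fun _ => hmv
  · rcases lt_or_gt_of_ne hα with h4 | h4
    · have := upper_mean (sq_nonneg _) (approxA' hd1 (α := α) rfl (by linarith))
        fun v hv hcv hmv => h v hv hcv fun _ => hmv
      refine this.trans (le_of_eq ?_)
      ring
    · have := upper_free (L' := L') (approxA hd1 (α := α) rfl) fun v hv hcv =>
        h v hv hcv fun h5 => absurd h5 (not_lt.2 h4.le)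
      refine this.trans (le_of_eq ?_)
      ring
  · exact upper_free (L' := L') (approxB hd1 (α := α) (not_le.1 h3).le) fun v hv hcv =>
        h v hv hcv fun h5 => absurd h5 (not_lt.2 (by linarith [not_le.1 h3]))

end W2helper78.WH
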