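import Pool.Agent.Q94.NB.K14
import Pool.Agent.Q94.NB.K17

/-!
# Decomposition of a function on `ℝ^d` into its spherical means and the oscillation
-/

set_option autoImplicit false

open MeasureTheory Set Filter Topology Metric
open scoped ENNReal

namespace W2helper78.WH

open Q94.NB Q94.NB.S98

/-- Poincare inequality on spheres -/
lemma sph4 : S4 := s4 (s2 s1) s3

variable {d : ℕ}

/-- the product measure `dr × dσ` on `(0, R) × S^(d-1)` -/
noncomputable def PM (d : ℕ) (R : ℝ) : Measure (ℝ × sphere (0 : E d) 1) :=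
  (volume.restrict (Ioo (0 : ℝ) R)).prod (sg d)

lemma aeI (d : ℕ) (R : ℝ) : ∀ᵐ z ∂(PM d R), z.1 ∈ Ioo (0 : ℝ) R :=
  Measure.quasiMeasurePreserving_fst.ae (ae_restrict_mem measurableSet_Ioo)

lemma intPM (R : ℝ) {f : ℝ × sphere (0 : E d) 1 → ℝ} (hf : Continuous f) :
    Integrable f (PM d R) := by
  have fin := sg_fin d
  have finρ : IsFiniteMeasure (volume.restrict (Ioo (0 : ℝ) R)) := ⟨by simp⟩
  have finP : IsFiniteMeasure (PM d R) := by unfold PM; infer_instance
  obtain ⟨K, hK⟩ := ((isCompact_Icc (a := (0 : ℝ)) (b := R)).prod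
    (isCompact_univ (X := sphere (0 : E d) 1))).exists_bound_of_continuousOn hf.continuousOn
  refine (integrable_const K).mono' hf.aestronglyMeasurable ?_
  filter_upwards [aeI d R] with z hz
  exact hK z ⟨⟨hz.1.le, hz.2.le⟩, mem_univ _⟩

lemma smul_cont : Continuous fun z : ℝ × sphere (0 : E d) 1 => z.1 • (z.2 : E d) := by fun_prop

lemma norm_rt {r : ℝ} (hr : 0 ≤ r) (θ : sphere (0 : E d) 1) : ‖r • (θ : E d)‖ = r := by
  rw [norm_smul, norm_sph, mul_one, Real.norm_of_nonneg hr]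

/-- polar coordinates for nonnegative functions vanishing outside a ball -/
lemma polP (hd : 1 ≤ d) (R : ℝ) {G : E d → ℝ} (hG : Measurable G) (h0 : ∀ x, 0 ≤ G x)
    (hR : ∀ x, R ≤ ‖x‖ → G x = 0) :
    ∫ x, G x = ∫ z, z.1 ^ (d - 1) * G (z.1 • (z.2 : E d)) ∂(PM d R) := by
  have := sg_fin d
  rw [integral_eq_lintegral_of_nonneg_ae (Eventually.of_forall h0) hG.aestronglyMeasurable,
    polar hd _ hG.ennreal_ofReal]
  have hm : Measurable (fun z : ℝ × sphere (0 : E d) 1 => G (z.1 • (z.2 : E d))) :=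
    hG.comp (by fun_prop)
  have hm2 : Measurable (fun z : ℝ × sphere (0 : E d) 1 => z.1 ^ (d - 1) * G (z.1 • (z.2 : E d))) :=
    (measurable_fst.pow_const _).mul hm
  rw [integral_eq_lintegral_of_nonneg_ae ?_ hm2.aestronglyMeasurable, PM,
    lintegral_prod _ hm2.ennreal_ofReal.aemeasurable]
  · congr 1
    rw [← lintegral_indicator measurableSet_Ioi, ← lintegral_indicator measurableSet_Ioo]
    refine lintegral_congr fun r => ?_
    by_cases hr0 : 0 < r
    · rw [indicator_of_mem (show r ∈ Ioi (0 : ℝ) from hr0)]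
      by_cases hrR : r < R
      · rw [indicator_of_mem (show r ∈ Ioo (0 : ℝ) R from ⟨hr0, hrR⟩)]
        rw [← lintegral_const_mul _ (by
          have : Measurable fun θ : sphere (0 : E d) 1 => G (r • (θ : E d)) := hG.comp (by fun_prop)
          exact this.ennreal_ofReal)]
        refine lintegral_congr fun θ => ?_
        rw [ENNReal.ofReal_mul (pow_nonneg hr0.le _)]
      · rw [indicator_of_notMem (show r ∉ Ioo (0 : ℝ) R from fun h => hrR h.2)]
        have : ∀ θ : sphere (0 : E d) 1, ENNReal.ofReal (G (r • (θ : E d))) = 0 := by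
          intro θ
          rw [hR _ (by rw [norm_rt hr0.le]; exact not_lt.1 hrR), ENNReal.ofReal_zero]
        simp [this]
    · rw [indicator_of_notMem (show r ∉ Ioi (0 : ℝ) from hr0),
        indicator_of_notMem (show r ∉ Ioo (0 : ℝ) R from fun h => hr0 h.1)]
  · filter_upwards [aeI d R] with z hz
    exact mul_nonneg (pow_nonneg hz.1.le _) (h0 _)

/-- polar coordinates for continuous functions vanishing outside a ball -/
lemma polC (hd : 1 ≤ d) (R : ℝ) {G : E d → ℝ} (hG : Continuous G)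
    (hR : ∀ x, R ≤ ‖x‖ → G x = 0) :
    ∫ x, G x = ∫ z, z.1 ^ (d - 1) * G (z.1 • (z.2 : E d)) ∂(PM d R) := by
  have hcs : HasCompactSupport G := by
    refine HasCompactSupport.of_support_subset_isCompact (isCompact_closedBall (0 : E d) R) ?_
    intro x hx
    rw [mem_closedBall, dist_zero_right]
    by_contra h
    exact hx (hR x (not_le.1 h).le)
  have c1 : Continuous fun x => max (G x) 0 := hG.max continuous_const
  have c2 : Continuous fun x => max (-G x) 0 := hG.neg.max continuous_const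
  have s1 : HasCompactSupport fun x => max (G x) 0 :=
    hcs.comp_left (g := fun y => max y 0) (by simp)
  have s2 : HasCompactSupport fun x => max (-G x) 0 :=
    hcs.comp_left (g := fun y => max (-y) 0) (by simp)
  have p1 := polP hd R c1.measurable (fun x => le_max_right _ _) (fun x hx => by simp [hR x hx])
  have p2 := polP hd R c2.measurable (fun x => le_max_right _ _) (fun x hx => by simp [hR x hx])
  have e : ∀ y : ℝ, y = max y 0 - max (-y) 0 := by
    intro y
    rcases le_total 0 y with h | h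
    · rw [max_eq_left h, max_eq_right (by linarith)]; ring
    · rw [max_eq_right h, max_eq_left (by linarith)]; ring
  have i1 := c1.integrable_of_hasCompactSupport s1 (μ := volume)
  have i2 := c2.integrable_of_hasCompactSupport s2 (μ := volume)
  calc ∫ x, G x = ∫ x, (max (G x) 0 - max (-G x) 0) := by
        refine integral_congr_ae (Eventually.of_forall fun x => e (G x))
    _ = (∫ x, max (G x) 0) - ∫ x, max (-G x) 0 := integral_sub i1 i2
    _ = _ := by
      rw [p1, p2, ← integral_sub]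
      · refine integral_congr_ae (Eventually.of_forall fun z => ?_)
        show z.1 ^ (d - 1) * max (G (z.1 • (z.2 : E d))) 0 -
          z.1 ^ (d - 1) * max (-G (z.1 • (z.2 : E d))) 0 = z.1 ^ (d - 1) * G (z.1 • (z.2 : E d))
        conv_rhs => rw [e (G (z.1 • (z.2 : E d)))]
        ring
      · exact intPM R ((continuous_fst.pow _).mul (c1.comp smul_cont))
      · exact intPM R ((continuous_fst.pow _).mul (c2.comp smul_cont))

lemma toI {R : ℝ} (hR : 0 ≤ R) (f : ℝ → ℝ) :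
    ∫ r, f r ∂(volume.restrict (Ioo (0 : ℝ) R)) = ∫ r in (0 : ℝ)..R, f r := by
  rw [intervalIntegral.integral_of_le hR, integral_Ioc_eq_integral_Ioo]

/-- Fubini, angular integral inside -/
lemma fubR {R : ℝ} (hR : 0 ≤ R) {f : ℝ × sphere (0 : E d) 1 → ℝ} (hf : Continuous f) :
    ∫ z, f z ∂(PM d R) = ∫ r in (0 : ℝ)..R, ∫ θ, f (r, θ) ∂(sg d) := by
  have := sg_fin d
  have hi := intPM R hf
  unfold PM at hi ⊢
  rw [integral_prod _ hi, toI hR]

lemma sgpos (hd : 1 ≤ d) : 0 < (sg d).real univ := by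
  have fin := sg_fin d
  have : Nontrivial (E d) := by
    have : Nonempty (Fin d) := ⟨⟨0, by omega⟩⟩
    infer_instance
  rw [measureReal_def]
  refine ENNReal.toReal_pos ?_ (measure_ne_top _ _)
  rw [Measure.measure_univ_ne_zero]
  exact Measure.toSphere_ne_zero _

section decomp
variable {φ : E d → ℝ} {e w : ℝ → ℝ} {R L : ℝ}

lemma mnc (hφ : ContDiff ℝ 1 φ) : Continuous (mn φ) :=
  continuous_iff_continuousAt.2 fun r => (mn_deriv hφ r).continuousAt

lemma int_mn (hd : 1 ≤ d) (r : ℝ) :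
    ∫ θ, φ (r • (θ : E d)) ∂(sg d) = (sg d).real univ * mn φ r := by
  have := (sgpos hd).ne'
  rw [mn]
  field_simp

lemma int_mn' (hd : 1 ≤ d) (r : ℝ) :
    ∫ θ, gr φ r θ ∂(sg d) = (sg d).real univ * mn' φ r := by
  have := (sgpos hd).ne'
  rw [mn']
  field_simp

/-- the mean -/
lemma meanzero (hd : 1 ≤ d) (hφ : ContDiff ℝ 1 φ) (hR : 0 ≤ R)
    (hs : ∀ x, R ≤ ‖x‖ → φ x = 0) (he : Continuous e) :
    ∫ x, e ‖x‖ * φ x = (sg d).real univ * ∫ r in (0 : ℝ)..R, r ^ (d - 1) * (e r * mn φ r) := by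
  rw [polC hd R (G := fun x => e ‖x‖ * φ x) (by
    have := hφ.continuous
    fun_prop) (fun x hx => by simp [hs x hx])]
  have cM : Continuous fun z : ℝ × sphere (0 : E d) 1 =>
      z.1 ^ (d - 1) * (e ‖z.1 • (z.2 : E d)‖ * φ (z.1 • (z.2 : E d))) :=
    (continuous_fst.pow _).mul ((he.comp smul_cont.norm).mul (hφ.continuous.comp smul_cont))
  rw [fubR hR cM, ← intervalIntegral.integral_const_mul]
  refine intervalIntegral.integral_congr fun r hr => ?_
  rw [uIcc_of_le hR] at hr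
  show ∫ θ : sphere (0 : E d) 1, r ^ (d - 1) * (e ‖r • (θ : E d)‖ * φ (r • (θ : E d))) ∂(sg d) = _
  simp_rw [norm_rt hr.1]
  rw [integral_const_mul, integral_const_mul, int_mn hd]
  ring

theorem decomp (hd : 3 ≤ d) (hφ : ContDiff ℝ 1 φ) (hR : 0 < R)
    (hs : ∀ x, R ≤ ‖x‖ → φ x = 0) (hs' : ∀ x, R ≤ ‖x‖ → gradient φ x = 0)
    (he : Continuous e) (hw : Continuous w) (hw0 : ∀ r, 0 ≤ w r)
    (hosc : ∀ H H' : ℝ → ℝ, (∀ r, HasDerivAt H (H' r) r) → Continuous H' → H R = 0 →
      L * ∫ r in (0 : ℝ)..R, r ^ (d - 1) * (e r * H r ^ 2) ≤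
      ∫ r in (0 : ℝ)..R, (r ^ (d - 1) * (w r * H' r ^ 2) +
        ((d : ℝ) - 1) * (r ^ (d - 3) * (w r * H r ^ 2))))
    (hmean : ∀ m m' : ℝ → ℝ, (∀ r, HasDerivAt m (m' r) r) → Continuous m' → m R = 0 →
      ∫ r in (0 : ℝ)..R, r ^ (d - 1) * (e r * m r) = 0 →
      L * ∫ r in (0 : ℝ)..R, r ^ (d - 1) * (e r * m r ^ 2) ≤
      ∫ r in (0 : ℝ)..R, r ^ (d - 1) * (w r * m' r ^ 2))
    (hzero : ∫ x, e ‖x‖ * φ x = 0) :
    L * ∫ x, e ‖x‖ * φ x ^ 2 ≤ ∫ x, w ‖x‖ * ‖gradient φ x‖ ^ 2 := by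
  have hd1 : 1 ≤ d := by omega
  have fin := sg_fin d
  have hg := grad_cont hφ
  have hφc := hφ.continuous
  have hgr := gr_cont hφ
  have hmn := mnc hφ
  have hmn' := mn'_cont hφ
  have hS := sgpos hd1
  set S : ℝ := (sg d).real univ with hSdef
  -- the oscillation
  set hh : ℝ → sphere (0 : E d) 1 → ℝ := fun r θ => φ (r • (θ : E d)) - mn φ r with hhh
  set hh' : ℝ → sphere (0 : E d) 1 → ℝ := fun r θ => gr φ r θ - mn' φ r with hhh'
  have hhc : Continuous (fun z : ℝ × sphere (0 : E d) 1 => hh z.1 z.2) := by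
    have a1 : Continuous (fun z : ℝ × sphere (0 : E d) 1 => φ (z.1 • (z.2 : E d))) :=
      hφc.comp (by fun_prop)
    exact a1.sub (hmn.comp continuous_fst)
  have hh'c : Continuous (fun z : ℝ × sphere (0 : E d) 1 => hh' z.1 z.2) :=
    hgr.sub (hmn'.comp continuous_fst)
  have iu : ∀ r : ℝ, Integrable (fun θ : sphere (0 : E d) 1 => φ (r • (θ : E d))) (sg d) :=
    fun r => sph_int d (hφc.comp (by fun_prop))
  have ig : ∀ r : ℝ, Integrable (fun θ : sphere (0 : E d) 1 => gr φ r θ) (sg d) :=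
    fun r => sph_int d (hgr.comp
      (by fun_prop : Continuous fun θ : sphere (0 : E d) 1 => (r, θ)))
  have zero1 : ∀ r, ∫ θ, hh r θ ∂(sg d) = 0 := by
    intro r
    simp only [hhh]
    rw [integral_sub (iu r) (integrable_const _), int_mn hd1, integral_const, smul_eq_mul, ← hSdef]
    ring
  have zero2 : ∀ r, ∫ θ, hh' r θ ∂(sg d) = 0 := by
    intro r
    simp only [hhh']
    rw [integral_sub (ig r) (integrable_const _), int_mn' hd1, integral_const, smul_eq_mul,
      ← hSdef]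
    ring
  have ihh : ∀ r, Integrable (fun θ => hh r θ) (sg d) := fun r => (iu r).sub (integrable_const _)
  have ihh' : ∀ r, Integrable (fun θ => hh' r θ) (sg d) := fun r => (ig r).sub (integrable_const _)
  have ihh2 : ∀ r, Integrable (fun θ => hh r θ ^ 2) (sg d) := fun r =>
    sph_int d ((hhc.comp (by fun_prop : Continuous fun θ : sphere (0 : E d) 1 => (r, θ))).pow 2)
  have ihh'2 : ∀ r, Integrable (fun θ => hh' r θ ^ 2) (sg d) := fun r =>
    sph_int d ((hh'c.comp (by fun_prop : Continuous fun θ : sphere (0 : E d) 1 => (r, θ))).pow 2)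
  have gnc : Continuous fun z : ℝ × sphere (0 : E d) 1 => ‖gradient φ (z.1 • (z.2 : E d))‖ ^ 2 :=
    (hg.comp smul_cont).norm.pow 2
  have ewc : Continuous fun z : ℝ × sphere (0 : E d) 1 => e z.1 := he.comp continuous_fst
  have wwc : Continuous fun z : ℝ × sphere (0 : E d) 1 => w z.1 := hw.comp continuous_fst
  have pc : Continuous fun z : ℝ × sphere (0 : E d) 1 => z.1 ^ (d - 1) := continuous_fst.pow _
  have mc2 : Continuous fun z : ℝ × sphere (0 : E d) 1 => mn φ z.1 := hmn.comp continuous_fst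
  have mc2' : Continuous fun z : ℝ × sphere (0 : E d) 1 => mn' φ z.1 := hmn'.comp continuous_fst
  have cA : Continuous fun z : ℝ × sphere (0 : E d) 1 =>
      z.1 ^ (d - 1) * (e z.1 * hh z.1 z.2 ^ 2) := pc.mul (ewc.mul (hhc.pow 2))
  have cB : Continuous fun z : ℝ × sphere (0 : E d) 1 =>
      z.1 ^ (d - 1) * (w z.1 * hh' z.1 z.2 ^ 2) := pc.mul (wwc.mul (hh'c.pow 2))
  have cG : Continuous fun z : ℝ × sphere (0 : E d) 1 =>
      z.1 ^ (d - 1) * (w z.1 * gr φ z.1 z.2 ^ 2) := pc.mul (wwc.mul (hgr.pow 2))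
  have cT : Continuous fun z : ℝ × sphere (0 : E d) 1 => z.1 ^ (d - 1) * (w z.1 *
      (‖gradient φ (z.1 • (z.2 : E d))‖ ^ 2 - gr φ z.1 z.2 ^ 2)) :=
    pc.mul (wwc.mul (gnc.sub (hgr.pow 2)))
  have pc3 : Continuous fun z : ℝ × sphere (0 : E d) 1 => z.1 ^ (d - 3) := continuous_fst.pow _
  have cC : Continuous fun z : ℝ × sphere (0 : E d) 1 =>
      ((d : ℝ) - 1) * (z.1 ^ (d - 3) * (w z.1 * hh z.1 z.2 ^ 2)) :=
    continuous_const.mul (pc3.mul (wwc.mul (hhc.pow 2)))
  have cL : Continuous fun z : ℝ × sphere (0 : E d) 1 =>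
      z.1 ^ (d - 1) * (e ‖z.1 • (z.2 : E d)‖ * φ (z.1 • (z.2 : E d)) ^ 2) :=
    pc.mul ((he.comp smul_cont.norm).mul ((hφc.comp smul_cont).pow 2))
  -- left side
  have left : ∫ x, e ‖x‖ * φ x ^ 2 =
      (∫ z, z.1 ^ (d - 1) * (e z.1 * hh z.1 z.2 ^ 2) ∂(PM d R)) +
        S * ∫ r in (0 : ℝ)..R, r ^ (d - 1) * (e r * mn φ r ^ 2) := by
    rw [polC hd1 R (G := fun x => e ‖x‖ * φ x ^ 2) (by fun_prop) (fun x hx => by simp [hs x hx]),
      fubR hR.le cL, fubR hR.le cA,
      ← intervalIntegral.integral_const_mul, ← intervalIntegral.integral_add]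
    · refine intervalIntegral.integral_congr fun r hr => ?_
      rw [uIcc_of_le hR.le] at hr
      show ∫ θ : sphere (0 : E d) 1, r ^ (d - 1) * (e ‖r • (θ : E d)‖ * φ (r • (θ : E d)) ^ 2)
          ∂(sg d) = (∫ θ : sphere (0 : E d) 1, r ^ (d - 1) * (e r * hh r θ ^ 2) ∂(sg d)) +
            S * (r ^ (d - 1) * (e r * mn φ r ^ 2))
      have e1 : (fun θ : sphere (0 : E d) 1 => r ^ (d - 1) * (e ‖r • (θ : E d)‖
          * φ (r • (θ : E d)) ^ 2)) = fun θ => (r ^ (d - 1) * (e r * hh r θ ^ 2)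
            + r ^ (d - 1) * (e r * mn φ r ^ 2))
            + (2 * r ^ (d - 1) * e r * mn φ r) * hh r θ := by
        funext θ
        rw [norm_rt hr.1]
        simp only [hhh]
        ring
      have j0 : Integrable (fun θ : sphere (0 : E d) 1 => r ^ (d - 1) * (e r * hh r θ ^ 2))
        (sg d) := ((ihh2 r).const_mul _).const_mul _
      have j1 : Integrable (fun θ : sphere (0 : E d) 1 => r ^ (d - 1) * (e r * hh r θ ^ 2)
            + r ^ (d - 1) * (e r * mn φ r ^ 2)) (sg d) := j0.add (integrable_const _)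
      rw [e1, integral_add j1 ((ihh r).const_mul _), integral_const_mul, zero1, mul_zero, add_zero,
        integral_add j0 (integrable_const _), integral_const, smul_eq_mul, ← hSdef]
    · have h := continuous_parametric_integral_of_continuous (μ := sg d)
        (f := fun (r : ℝ) (θ : sphere (0 : E d) 1) => r ^ (d - 1) * (e r * hh r θ ^ 2))
        cA (s := univ) isCompact_univ
      simp only [Measure.restrict_univ] at h
      exact h.intervalIntegrable _ _
    · apply Continuous.intervalIntegrable; fun_prop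
  -- right side
  have right : ∫ x, w ‖x‖ * ‖gradient φ x‖ ^ 2 =
      (∫ z, z.1 ^ (d - 1) * (w z.1 * hh' z.1 z.2 ^ 2) ∂(PM d R)) +
      (∫ z, z.1 ^ (d - 1) * (w z.1 *
          (‖gradient φ (z.1 • (z.2 : E d))‖ ^ 2 - gr φ z.1 z.2 ^ 2)) ∂(PM d R)) +
        S * ∫ r in (0 : ℝ)..R, r ^ (d - 1) * (w r * mn' φ r ^ 2) := by
    have k1 : ∫ z, z.1 ^ (d - 1) * (w ‖z.1 • (z.2 : E d)‖ *
        ‖gradient φ (z.1 • (z.2 : E d))‖ ^ 2) ∂(PM d R) =
        (∫ z, z.1 ^ (d - 1) * (w z.1 * gr φ z.1 z.2 ^ 2) ∂(PM d R)) +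
        ∫ z, z.1 ^ (d - 1) * (w z.1 *
          (‖gradient φ (z.1 • (z.2 : E d))‖ ^ 2 - gr φ z.1 z.2 ^ 2)) ∂(PM d R) := by
      rw [← integral_add (intPM R cG) (intPM R cT)]
      refine integral_congr_ae ?_
      filter_upwards [aeI d R] with z hz
      rw [norm_rt hz.1.le]
      ring
    rw [polC hd1 R (G := fun x => w ‖x‖ * ‖gradient φ x‖ ^ 2) (by fun_prop)
      (fun x hx => by simp [hs' x hx]), k1]
    have k2 : ∫ z, z.1 ^ (d - 1) * (w z.1 * gr φ z.1 z.2 ^ 2) ∂(PM d R) =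
        (∫ z, z.1 ^ (d - 1) * (w z.1 * hh' z.1 z.2 ^ 2) ∂(PM d R)) +
        S * ∫ r in (0 : ℝ)..R, r ^ (d - 1) * (w r * mn' φ r ^ 2) := by
      rw [fubR hR.le cG, fubR hR.le cB,
        ← intervalIntegral.integral_const_mul, ← intervalIntegral.integral_add]
      · refine intervalIntegral.integral_congr fun r hr => ?_
        show ∫ θ : sphere (0 : E d) 1, r ^ (d - 1) * (w r * gr φ r θ ^ 2)
            ∂(sg d) = (∫ θ : sphere (0 : E d) 1, r ^ (d - 1) * (w r * hh' r θ ^ 2) ∂(sg d)) +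
              S * (r ^ (d - 1) * (w r * mn' φ r ^ 2))
        have e1 : (fun θ : sphere (0 : E d) 1 => r ^ (d - 1) * (w r * gr φ r θ ^ 2))
            = fun θ => (r ^ (d - 1) * (w r * hh' r θ ^ 2)
              + r ^ (d - 1) * (w r * mn' φ r ^ 2))
              + (2 * r ^ (d - 1) * w r * mn' φ r) * hh' r θ := by
          funext θ
          simp only [hhh']
          ring
        have j0 : Integrable (fun θ : sphere (0 : E d) 1 => r ^ (d - 1) * (w r * hh' r θ ^ 2))
          (sg d) := ((ihh'2 r).const_mul _).const_mul _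
        have j1 : Integrable (fun θ : sphere (0 : E d) 1 => r ^ (d - 1) * (w r * hh' r θ ^ 2)
              + r ^ (d - 1) * (w r * mn' φ r ^ 2)) (sg d) := j0.add (integrable_const _)
        rw [e1, integral_add j1 ((ihh' r).const_mul _), integral_const_mul, zero2, mul_zero,
          add_zero, integral_add j0 (integrable_const _), integral_const, smul_eq_mul, ← hSdef]
      · have h := continuous_parametric_integral_of_continuous (μ := sg d)
          (f := fun (r : ℝ) (θ : sphere (0 : E d) 1) => r ^ (d - 1) * (w r * hh' r θ ^ 2))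
          cB (s := univ) isCompact_univ
        simp only [Measure.restrict_univ] at h
        exact h.intervalIntegrable _ _
      · apply Continuous.intervalIntegrable; fun_prop
    rw [k2]
    ring
  -- the angular inequality
  have ang : ∫ z, ((d : ℝ) - 1) * (z.1 ^ (d - 3) * (w z.1 * hh z.1 z.2 ^ 2)) ∂(PM d R) ≤
      ∫ z, z.1 ^ (d - 1) * (w z.1 *
          (‖gradient φ (z.1 • (z.2 : E d))‖ ^ 2 - gr φ z.1 z.2 ^ 2)) ∂(PM d R) := by
    have iC : Integrable (fun z : ℝ × sphere (0 : E d) 1 =>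
        ((d : ℝ) - 1) * (z.1 ^ (d - 3) * (w z.1 * hh z.1 z.2 ^ 2))) (PM d R) :=
      intPM R cC
    have iT : Integrable (fun z : ℝ × sphere (0 : E d) 1 => z.1 ^ (d - 1) * (w z.1 *
          (‖gradient φ (z.1 • (z.2 : E d))‖ ^ 2 - gr φ z.1 z.2 ^ 2))) (PM d R) :=
      intPM R cT
    unfold PM at iC iT ⊢
    rw [integral_prod _ iC, integral_prod _ iT]
    refine integral_mono_ae iC.integral_prod_left iT.integral_prod_left ?_
    filter_upwards [ae_restrict_mem measurableSet_Ioo] with r hr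
    show ∫ θ : sphere (0 : E d) 1, ((d : ℝ) - 1) * (r ^ (d - 3) * (w r * hh r θ ^ 2)) ∂(sg d)
      ≤ ∫ θ : sphere (0 : E d) 1, r ^ (d - 1) * (w r *
          (‖gradient φ (r • (θ : E d))‖ ^ 2 - gr φ r θ ^ 2)) ∂(sg d)
    have h6 := sph4 d φ r (by omega) hφ hr.1
    have hd3 : (3 : ℝ) ≤ d := by exact_mod_cast hd
    have a4 : 0 < (d : ℝ) - 1 := by linarith
    have a5 : r ≠ 0 := hr.1.ne'
    simp_rw [integral_const_mul]
    have e4 : r ^ (d - 1) = r ^ (d - 3) * r ^ 2 := by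
      rw [← pow_add]; congr 1; omega
    rw [e4]
    have hp : 0 ≤ r ^ (d - 3) * w r := mul_nonneg (pow_nonneg hr.1.le _) (hw0 _)
    calc ((d : ℝ) - 1) * (r ^ (d - 3) * (w r * ∫ θ : sphere (0 : E d) 1, hh r θ ^ 2 ∂(sg d)))
        = (r ^ (d - 3) * w r) * (((d : ℝ) - 1) *
            ∫ θ : sphere (0 : E d) 1, hh r θ ^ 2 ∂(sg d)) := by ring
      _ ≤ (r ^ (d - 3) * w r) * (((d : ℝ) - 1) * ((r ^ 2 / ((d : ℝ) - 1)) *
          ∫ θ : sphere (0 : E d) 1,
          (‖gradient φ (r • (θ : E d))‖ ^ 2 - gr φ r θ ^ 2) ∂(sg d))) :=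
          mul_le_mul_of_nonneg_left (mul_le_mul_of_nonneg_left h6 a4.le) hp
      _ = _ := by
          field_simp
  -- the radial inequality for the oscillation
  have rad : L * ∫ z, z.1 ^ (d - 1) * (e z.1 * hh z.1 z.2 ^ 2) ∂(PM d R)
      ≤ (∫ z, z.1 ^ (d - 1) * (w z.1 * hh' z.1 z.2 ^ 2) ∂(PM d R))
        + ∫ z, ((d : ℝ) - 1) * (z.1 ^ (d - 3) * (w z.1 * hh z.1 z.2 ^ 2)) ∂(PM d R) := by
    have iA : Integrable (fun z : ℝ × sphere (0 : E d) 1 =>
        z.1 ^ (d - 1) * (e z.1 * hh z.1 z.2 ^ 2)) (PM d R) :=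
      intPM R cA
    have iA' : Integrable (fun z : ℝ × sphere (0 : E d) 1 =>
        L * (z.1 ^ (d - 1) * (e z.1 * hh z.1 z.2 ^ 2))) (PM d R) := iA.const_mul L
    have iB : Integrable (fun z : ℝ × sphere (0 : E d) 1 =>
        z.1 ^ (d - 1) * (w z.1 * hh' z.1 z.2 ^ 2)) (PM d R) :=
      intPM R cB
    have iC : Integrable (fun z : ℝ × sphere (0 : E d) 1 =>
        ((d : ℝ) - 1) * (z.1 ^ (d - 3) * (w z.1 * hh z.1 z.2 ^ 2))) (PM d R) :=
      intPM R cC
    have iBC : Integrable (fun z : ℝ × sphere (0 : E d) 1 =>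
        z.1 ^ (d - 1) * (w z.1 * hh' z.1 z.2 ^ 2) +
        ((d : ℝ) - 1) * (z.1 ^ (d - 3) * (w z.1 * hh z.1 z.2 ^ 2))) (PM d R) := iB.add iC
    rw [← integral_const_mul, ← integral_add iB iC]
    unfold PM at iA' iBC ⊢
    rw [integral_prod_symm _ iA', integral_prod_symm _ iBC]
    refine integral_mono_ae iA'.integral_prod_right iBC.integral_prod_right
      (Eventually.of_forall fun θ => ?_)
    show ∫ r, L * (r ^ (d - 1) * (e r * hh r θ ^ 2)) ∂(volume.restrict (Ioo (0 : ℝ) R)) ≤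
      ∫ r, (r ^ (d - 1) * (w r * hh' r θ ^ 2)
      + ((d : ℝ) - 1) * (r ^ (d - 3) * (w r * hh r θ ^ 2))) ∂(volume.restrict (Ioo (0 : ℝ) R))
    rw [toI hR.le, toI hR.le, intervalIntegral.integral_const_mul]
    refine hosc (fun r => hh r θ) (fun r => hh' r θ)
      (fun r => (uf_deriv hφ θ r).sub (mn_deriv hφ r))
      (hh'c.comp (by fun_prop : Continuous fun r : ℝ => (r, θ))) ?_
    show φ (R • (θ : E d)) - mn φ R = 0
    have z1 : ∀ θ : sphere (0 : E d) 1, φ (R • (θ : E d)) = 0 := fun θ =>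
      hs _ (by rw [norm_rt hR.le])
    rw [z1, mn]
    simp [z1]
  -- the mean
  have mea : L * ∫ r in (0 : ℝ)..R, r ^ (d - 1) * (e r * mn φ r ^ 2) ≤
      ∫ r in (0 : ℝ)..R, r ^ (d - 1) * (w r * mn' φ r ^ 2) := by
    refine hmean (mn φ) (mn' φ) (mn_deriv hφ) hmn' ?_ ?_
    · rw [mn]
      have z1 : ∀ θ : sphere (0 : E d) 1, φ (R • (θ : E d)) = 0 := fun θ =>
        hs _ (by rw [norm_rt hR.le])
      simp [z1]
    · have := meanzero hd1 hφ hR.le hs he
      rw [hzero] at this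
      rcases mul_eq_zero.1 this.symm with h | h
      · exact absurd h hS.ne'
      · exact h
  rw [left, right]
  have := mul_le_mul_of_nonneg_left mea hS.le
  calc L * ((∫ z, z.1 ^ (d - 1) * (e z.1 * hh z.1 z.2 ^ 2) ∂(PM d R)) +
        S * ∫ r in (0 : ℝ)..R, r ^ (d - 1) * (e r * mn φ r ^ 2))
      = (L * ∫ z, z.1 ^ (d - 1) * (e z.1 * hh z.1 z.2 ^ 2) ∂(PM d R)) +
        S * (L * ∫ r in (0 : ℝ)..R, r ^ (d - 1) * (e r * mn φ r ^ 2)) := by ring
    _ ≤ _ := by linarith

end decomp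

end W2helper78.WH
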