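import Pool.Agent.W2helper78.WH.Mean
import Pool.Agent.W2helper78.WH.Space

/-!
# Lower bounds for the weighted Hardy quotient
-/

set_option autoImplicit false

open MeasureTheory Set Filter Topology Metric

namespace W2helper78.WH

open Q94.NB Q94.NB.S98

variable {d : ℕ}

/-- the numerator `∫ (1 + |x|^2)^α |∇u|^2` -/
noncomputable def NN (α : ℝ) (u : E d → ℝ) : ℝ := ∫ x, ww α ‖x‖ * ‖gradient u x‖ ^ 2

/-- the denominator `∫ (1 + |x|^2)^(α-1) u^2` -/
noncomputable def DD (α : ℝ) (u : E d → ℝ) : ℝ := ∫ x, ww (α - 1) ‖x‖ * u x ^ 2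

/-- the mean `∫ (1 + |x|^2)^(α-1) u` -/
noncomputable def MM (α : ℝ) (u : E d → ℝ) : ℝ := ∫ x, ww (α - 1) ‖x‖ * u x

/-- a radius beyond which a compactly supported function and its gradient vanish -/
lemma exists_rad {u : E d → ℝ} (hc : HasCompactSupport u) :
    ∃ R : ℝ, 0 < R ∧ (∀ x, R ≤ ‖x‖ → u x = 0) ∧ (∀ x, R ≤ ‖x‖ → gradient u x = 0) := by
  obtain ⟨R, hR⟩ := hc.isCompact.isBounded.subset_closedBall (0 : E d)
  have key : ∀ x : E d, |R| + 1 ≤ ‖x‖ → x ∉ tsupport u := by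
    intro x hx h
    have := hR h
    rw [mem_closedBall, dist_zero_right] at this
    have := le_abs_self R
    linarith
  refine ⟨|R| + 1, by positivity, fun x hx => image_eq_zero_of_notMem_tsupport (key x hx), ?_⟩
  intro x hx
  have h1 : u =ᶠ[𝓝 x] fun _ => 0 := notMem_tsupport_iff_eventuallyEq.1 (key x hx)
  have h2 : fderiv ℝ u x = 0 := by
    rw [h1.fderiv_eq]
    simp
  rw [gradient, h2, map_zero]

/-- Lower bound from the inequality on rays. -/
theorem rays (hd : 1 ≤ d) {α L : ℝ} {φ : E d → ℝ} (hφ : ContDiff ℝ 1 φ) {R : ℝ} (hR : 0 < R)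
    (hs : ∀ x, R ≤ ‖x‖ → φ x = 0) (hs' : ∀ x, R ≤ ‖x‖ → gradient φ x = 0)
    (hray : ∀ H H' : ℝ → ℝ, (∀ r, HasDerivAt H (H' r) r) → Continuous H' → H R = 0 →
      L * ∫ r in (0 : ℝ)..R, r ^ (d - 1) * (ww (α - 1) r * H r ^ 2) ≤
      ∫ r in (0 : ℝ)..R, r ^ (d - 1) * (ww α r * H' r ^ 2)) :
    L * DD α φ ≤ NN α φ := by
  have fin := sg_fin d
  have hg := grad_cont hφ
  have hφc := hφ.continuous
  have hgr := gr_cont hφ
  have he := ww_cont (α - 1)
  have hw := ww_cont α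
  have pc : Continuous fun z : ℝ × sphere (0 : E d) 1 => z.1 ^ (d - 1) := continuous_fst.pow _
  have ewc : Continuous fun z : ℝ × sphere (0 : E d) 1 => ww (α - 1) z.1 := he.comp continuous_fst
  have wwc : Continuous fun z : ℝ × sphere (0 : E d) 1 => ww α z.1 := hw.comp continuous_fst
  have uc : Continuous fun z : ℝ × sphere (0 : E d) 1 => φ (z.1 • (z.2 : E d)) :=
    hφc.comp smul_cont
  have gnc : Continuous fun z : ℝ × sphere (0 : E d) 1 => ‖gradient φ (z.1 • (z.2 : E d))‖ ^ 2 :=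
    (hg.comp smul_cont).norm.pow 2
  have cA : Continuous fun z : ℝ × sphere (0 : E d) 1 =>
      z.1 ^ (d - 1) * (ww (α - 1) z.1 * φ (z.1 • (z.2 : E d)) ^ 2) :=
    pc.mul (ewc.mul (uc.pow 2))
  have cG : Continuous fun z : ℝ × sphere (0 : E d) 1 =>
      z.1 ^ (d - 1) * (ww α z.1 * gr φ z.1 z.2 ^ 2) := pc.mul (wwc.mul (hgr.pow 2))
  have cN : Continuous fun z : ℝ × sphere (0 : E d) 1 =>
      z.1 ^ (d - 1) * (ww α z.1 * ‖gradient φ (z.1 • (z.2 : E d))‖ ^ 2) := pc.mul (wwc.mul gnc)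
  have left : DD α φ = ∫ z, z.1 ^ (d - 1) * (ww (α - 1) z.1 * φ (z.1 • (z.2 : E d)) ^ 2)
      ∂(PM d R) := by
    unfold DD
    rw [polC hd R (G := fun x => ww (α - 1) ‖x‖ * φ x ^ 2) (by fun_prop)
      (fun x hx => by simp [hs x hx])]
    refine integral_congr_ae ?_
    filter_upwards [aeI d R] with z hz
    rw [norm_rt hz.1.le]
  have right : NN α φ = ∫ z, z.1 ^ (d - 1) * (ww α z.1 * ‖gradient φ (z.1 • (z.2 : E d))‖ ^ 2)
      ∂(PM d R) := by
    unfold NN
    rw [polC hd R (G := fun x => ww α ‖x‖ * ‖gradient φ x‖ ^ 2) (by fun_prop)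
      (fun x hx => by simp [hs' x hx])]
    refine integral_congr_ae ?_
    filter_upwards [aeI d R] with z hz
    rw [norm_rt hz.1.le]
  have step : ∫ z, z.1 ^ (d - 1) * (ww α z.1 * gr φ z.1 z.2 ^ 2) ∂(PM d R) ≤
      ∫ z, z.1 ^ (d - 1) * (ww α z.1 * ‖gradient φ (z.1 • (z.2 : E d))‖ ^ 2) ∂(PM d R) := by
    refine integral_mono_ae (intPM R cG) (intPM R cN) ?_
    filter_upwards [aeI d R] with z hz
    have h1 : gr φ z.1 z.2 ^ 2 ≤ ‖gradient φ (z.1 • (z.2 : E d))‖ ^ 2 := by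
      rw [← sq_abs]
      refine pow_le_pow_left₀ (abs_nonneg _) ?_ 2
      unfold gr
      refine (abs_real_inner_le_norm _ _).trans ?_
      rw [norm_sph, mul_one]
    exact mul_le_mul_of_nonneg_left (mul_le_mul_of_nonneg_left h1 (ww_pos _ _).le)
      (pow_nonneg hz.1.le _)
  rw [left, right]
  refine le_trans ?_ step
  have iA := intPM R cA
  have iA' : Integrable (fun z : ℝ × sphere (0 : E d) 1 =>
    L * (z.1 ^ (d - 1) * (ww (α - 1) z.1 * φ (z.1 • (z.2 : E d)) ^ 2))) (PM d R) := iA.const_mul L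
  have iB := intPM R cG
  rw [← integral_const_mul]
  unfold PM at iA' iB ⊢
  rw [integral_prod_symm _ iA', integral_prod_symm _ iB]
  refine integral_mono_ae iA'.integral_prod_right iB.integral_prod_right
    (Eventually.of_forall fun θ => ?_)
  show ∫ r, L * (r ^ (d - 1) * (ww (α - 1) r * φ (r • (θ : E d)) ^ 2))
      ∂(volume.restrict (Ioo (0 : ℝ) R)) ≤
    ∫ r, r ^ (d - 1) * (ww α r * gr φ r θ ^ 2) ∂(volume.restrict (Ioo (0 : ℝ) R))
  rw [toI hR.le, toI hR.le, intervalIntegral.integral_const_mul]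
  exact hray (fun r => φ (r • (θ : E d))) (fun r => gr φ r θ) (fun r => uf_deriv hφ θ r)
    (hgr.comp (by fun_prop : Continuous fun r : ℝ => (r, θ)))
    (hs _ (by rw [norm_rt hR.le]))

/-- Lower bound without constraint. -/
theorem lower_free (hd : 1 ≤ d) {α β L : ℝ}
    (h1 : L ≤ 2 * β * d) (h2 : L ≤ 2 * β * (d + 2 * α - 2 - 2 * β))
    {u : E d → ℝ} (hu : ContDiff ℝ 1 u) (hc : HasCompactSupport u) :
    L * DD α u ≤ NN α u := by
  obtain ⟨R, hR, hs, hs'⟩ := exists_rad hc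
  exact rays hd hu hR hs hs' fun H H' hH hH' hHR => ray hd hR.le h1 h2 hH hH' hHR

/-- Lower bound for functions of mean zero. -/
theorem lower_mean (hd : 3 ≤ d) {α q L : ℝ} (hL : 0 ≤ L) (h0 : L ≤ -(2 * α))
    (h1 : L ≤ -2 * (d * (q - α) + d + 2 * q)) (h2 : L ≤ -2 * (d + 2 * q) * (q - α + 1))
    {u : E d → ℝ} (hu : ContDiff ℝ 1 u) (hc : HasCompactSupport u) (hm : MM α u = 0) :
    L * DD α u ≤ NN α u := by
  obtain ⟨R, hR, hs, hs'⟩ := exists_rad hc
  refine decomp hd hu hR hs hs' (ww_cont _) (ww_cont _) (fun r => (ww_pos _ _).le) ?_ ?_ hm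
  · intro H H' hH hH' hHR
    have h3 := osc hd (α := α) hR.le hH hH' hHR
    refine le_trans ?_ h3
    refine mul_le_mul_of_nonneg_right h0 ?_
    refine intervalIntegral.integral_nonneg hR.le fun r hr => ?_
    have := pow_nonneg hr.1 (d - 1)
    have := (ww_pos (α - 1) r).le
    positivity
  · intro m m' hm1 hm2 hm3 hm4
    exact mean (by omega) hR hL h1 h2 hm1 hm2 hm3 hm4

end W2helper78.WH
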