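import Pool.Agent.W2helper78.WH.OneD

/-!
# One-dimensional weighted inequality for radial functions of mean zero
-/

set_option autoImplicit false

open MeasureTheory Set Filter Topology intervalIntegral

namespace W2helper78.WH

/-- the pointwise identity behind the inequality for the means -/
lemma alg {n r s T α q L m m' G : ℝ} (hr : 0 < r) (hs : 0 < s) (hT : 0 < T)
    (hsr : s = 1 + r ^ 2) (hL : 0 ≤ L)
    (h1 : L ≤ -2 * (n * (q - α) + n + 2 * q)) (h2 : L ≤ -2 * (n + 2 * q) * (q - α + 1)) :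
    -(2 * L) * (T / s * m * m + G * m') + L * (((2 * (n + 2 * q) * r) / (r * T) -
      (n + (n + 2 * q) * r ^ 2) * (n / r + 2 * α * r / s) / (r * T)) * G ^ 2 +
      (n + (n + 2 * q) * r ^ 2) / (r * T) * (2 * G * (T / s * m))) ≤
      T * m' ^ 2 - L * (T / s * m ^ 2) := by
  have id : T * m' ^ 2 - L * (T / s * m ^ 2) - (-(2 * L) * (T / s * m * m + G * m') +
      L * (((2 * (n + 2 * q) * r) / (r * T) -
      (n + (n + 2 * q) * r ^ 2) * (n / r + 2 * α * r / s) / (r * T)) * G ^ 2 +
      (n + (n + 2 * q) * r ^ 2) / (r * T) * (2 * G * (T / s * m)))) =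
      T * (m' + L * G / T) ^ 2 + L * (s / T) * (T / s * m - (n / r + 2 * q * r / s) * G) ^ 2 +
      L * G ^ 2 / (s * T) * (((-2 * (n * (q - α) + n + 2 * q)) - L) +
        r ^ 2 * (-2 * (n + 2 * q) * (q - α + 1) - L)) := by
    subst hsr
    field_simp
    ring
  have h1' : 0 ≤ (-2 * (n * (q - α) + n + 2 * q)) - L := by linarith
  have h2' : 0 ≤ -2 * (n + 2 * q) * (q - α + 1) - L := by linarith
  have : 0 ≤ T * (m' + L * G / T) ^ 2 +
      L * (s / T) * (T / s * m - (n / r + 2 * q * r / s) * G) ^ 2 +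
      L * G ^ 2 / (s * T) * (((-2 * (n * (q - α) + n + 2 * q)) - L) +
        r ^ 2 * (-2 * (n + 2 * q) * (q - α + 1) - L)) := by positivity
  linarith

/-- Inequality for the means. -/
theorem mean {n : ℕ} (hn : 1 ≤ n) {α q L R : ℝ} (hR : 0 < R) (hL : 0 ≤ L)
    (h1 : L ≤ -2 * (n * (q - α) + n + 2 * q)) (h2 : L ≤ -2 * (n + 2 * q) * (q - α + 1))
    {m m' : ℝ → ℝ} (hm : ∀ r, HasDerivAt m (m' r) r) (hm' : Continuous m') (hmR : m R = 0)
    (h0 : ∫ r in (0 : ℝ)..R, r ^ (n - 1) * (ww (α - 1) r * m r) = 0) :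
    L * ∫ r in (0 : ℝ)..R, r ^ (n - 1) * (ww (α - 1) r * m r ^ 2) ≤
      ∫ r in (0 : ℝ)..R, r ^ (n - 1) * (ww α r * m' r ^ 2) := by
  have hmc : Continuous m := continuous_iff_continuousAt.2 fun r => (hm r).continuousAt
  obtain ⟨k, rfl⟩ : ∃ k, n = k + 1 := ⟨n - 1, by omega⟩
  simp only [Nat.add_sub_cancel] at h0 ⊢
  have c0 := ww_cont α
  have c1 := ww_cont (α - 1)
  set A : ℝ → ℝ := fun r => r ^ k * (ww (α - 1) r * m r) with hA
  have hAc : Continuous A := by simp only [hA]; fun_prop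
  set G : ℝ → ℝ := fun r => ∫ s in (0 : ℝ)..r, A s with hG
  have hGd : ∀ r, HasDerivAt G (A r) r := fun r =>
    intervalIntegral.integral_hasDerivAt_right (hAc.intervalIntegrable _ _)
      (hAc.stronglyMeasurableAtFilter _ _) hAc.continuousAt
  have hGc : Continuous G := continuous_iff_continuousAt.2 fun r => (hGd r).continuousAt
  have hGR : G R = 0 := h0
  -- bounds
  obtain ⟨C0, hC0⟩ := (isCompact_Icc (a := (0 : ℝ)) (b := R)).exists_bound_of_continuousOn
    (f := fun r => ww (α - 1) r * m r) (by fun_prop)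
  have hC0' : 0 ≤ C0 := (norm_nonneg _).trans (hC0 0 ⟨le_rfl, hR.le⟩)
  have hGb : ∀ r ∈ Icc (0 : ℝ) R, |G r| ≤ C0 * r ^ (k + 1) := by
    intro r hr
    have := intervalIntegral.norm_integral_le_of_norm_le_const (a := (0 : ℝ)) (b := r) (f := A)
      (C := C0 * r ^ k) (fun x hx => by
        rw [uIoc_of_le hr.1] at hx
        simp only [hA]
        rw [norm_mul, Real.norm_of_nonneg (pow_nonneg hx.1.le _), mul_comm]
        have b1 := hC0 x ⟨hx.1.le, hx.2.trans hr.2⟩
        have b2 : x ^ k ≤ r ^ k := pow_le_pow_left₀ hx.1.le hx.2 _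
        exact mul_le_mul b1 b2 (pow_nonneg hx.1.le _) hC0')
    rw [Real.norm_eq_abs, sub_zero, abs_of_nonneg hr.1] at this
    calc |G r| ≤ C0 * r ^ k * r := this
      _ = C0 * r ^ (k + 1) := by ring
  obtain ⟨M, hM⟩ := (isCompact_Icc (a := (0 : ℝ)) (b := R)).exists_bound_of_continuousOn
    (f := m) hmc.continuousOn
  have hM0 : 0 ≤ M := (norm_nonneg _).trans (hM 0 ⟨le_rfl, hR.le⟩)
  set f : ℝ → ℝ := fun r => r ^ k * (ww α r * m' r ^ 2) - L * (r ^ k * (ww (α - 1) r * m r ^ 2))
    with hf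
  have hfc : Continuous f := by simp only [hf]; fun_prop
  obtain ⟨F, hF⟩ := (isCompact_Icc (a := (0 : ℝ)) (b := R)).exists_bound_of_continuousOn
    (f := f) hfc.continuousOn
  have hF0 : 0 ≤ F := (norm_nonneg _).trans (hF 0 ⟨le_rfl, hR.le⟩)
  set N : ℝ → ℝ := fun r => ((k + 1 : ℕ) : ℝ) + (((k + 1 : ℕ) : ℝ) + 2 * q) * r ^ 2 with hN
  obtain ⟨Nb, hNb⟩ := (isCompact_Icc (a := (0 : ℝ)) (b := R)).exists_bound_of_continuousOn
    (f := fun r => N r * (ww α r)⁻¹) (by
      refine Continuous.continuousOn ?_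
      refine Continuous.mul (by simp only [hN]; fun_prop) (c0.inv₀ fun r => (ww_pos α r).ne'))
  have hNb0 : 0 ≤ Nb := (norm_nonneg _).trans (hNb 0 ⟨le_rfl, hR.le⟩)
  -- the function P
  set P : ℝ → ℝ := fun r => -(2 * L) * (G r * m r) + L * (N r * (r * (r ^ k * ww α r))⁻¹ * G r ^ 2)
    with hP
  set P' : ℝ → ℝ := fun r => -(2 * L) * (A r * m r + G r * m' r) + L *
    (((2 * (((k + 1 : ℕ) : ℝ) + 2 * q) * r) / (r * (r ^ k * ww α r)) -
      N r * (((k + 1 : ℕ) : ℝ) / r + 2 * α * r / (1 + r ^ 2)) / (r * (r ^ k * ww α r))) * G r ^ 2 +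
      N r / (r * (r ^ k * ww α r)) * (2 * G r * A r)) with hP'
  have e1 : ∀ r, ww α r = (1 + r ^ 2) * ww (α - 1) r := by
    intro r
    rw [← ww_add_one]; congr 1; ring
  have hPd : ∀ r, 0 < r → HasDerivAt P (P' r) r := by
    intro r hr
    have w0 := ww_pos α r
    have w1 := ww_pos (α - 1) r
    have hrk : 0 < r ^ k := pow_pos hr _
    have b1 : HasDerivAt (fun r : ℝ => r * (r ^ k * ww α r))
        ((((k + 1 : ℕ) : ℝ) / r + 2 * α * r / (1 + r ^ 2)) * (r * (r ^ k * ww α r))) r := by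
      have := (hasDerivAt_pow (k + 1) r).mul (ww_deriv α r)
      have e : (fun r : ℝ => r * (r ^ k * ww α r)) = (fun r : ℝ => r ^ (k + 1)) * ww α := by
        funext x
        simp only [Pi.mul_apply]
        ring
      rw [e]
      refine this.congr_deriv ?_
      rw [e1 r]
      simp only [Nat.add_sub_cancel]
      have := base_pos r
      field_simp
      ring
    have hne : r * (r ^ k * ww α r) ≠ 0 := by positivity
    have b2 := b1.fun_inv hne
    have b3 : HasDerivAt N (2 * (((k + 1 : ℕ) : ℝ) + 2 * q) * r) r := by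
      have := ((hasDerivAt_pow 2 r).const_mul (((k + 1 : ℕ) : ℝ) + 2 * q)).const_add ((k + 1 : ℕ) : ℝ)
      refine this.congr_deriv ?_
      simp only [Nat.add_one_sub_one, pow_one]
      push_cast
      ring
    have b4 := (b3.mul b2).mul ((hGd r).pow 2)
    have b5 := (((hGd r).mul (hm r)).const_mul (-(2 * L))).add (b4.const_mul L)
    refine b5.congr_deriv ?_
    simp only [hP', Pi.mul_apply, Pi.pow_apply, Nat.add_one_sub_one, pow_one]
    have := base_pos r
    field_simp
    ring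
  have hP'c : ContinuousOn P' (Ioi 0) := by
    intro r hr
    have hr' : 0 < r := hr
    have w0 := ww_pos α r
    have hne : r * (r ^ k * ww α r) ≠ 0 := by positivity
    have hb := (base_pos r).ne'
    have hr0 : r ≠ 0 := hr'.ne'
    refine ContinuousAt.continuousWithinAt ?_
    simp only [hP', hN]
    have g1 : ContinuousAt (fun r : ℝ => r * (r ^ k * ww α r)) r := by
      exact (by fun_prop : Continuous (fun r : ℝ => r * (r ^ k * ww α r))).continuousAt
    have g2 : ContinuousAt (fun r : ℝ => 2 * α * r / (1 + r ^ 2)) r := by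
      refine ContinuousAt.div (by fun_prop) (by fun_prop) hb
    have g3 : ContinuousAt (fun r : ℝ => ((k + 1 : ℕ) : ℝ) / r) r :=
      continuousAt_const.div continuousAt_id hr0
    have g4 : ContinuousAt (fun r => G r ^ 2) r := (hGc.pow 2).continuousAt
    have g5 : ContinuousAt (fun r => 2 * G r * A r) r := by
      exact (by fun_prop : Continuous (fun r => 2 * G r * A r)).continuousAt
    have g6 : ContinuousAt (fun r => -(2 * L) * (A r * m r + G r * m' r)) r := by
      exact (by fun_prop : Continuous (fun r => -(2 * L) * (A r * m r + G r * m' r))).continuousAt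
    have g7 : ContinuousAt (fun r : ℝ => ((k + 1 : ℕ) : ℝ) + (((k + 1 : ℕ) : ℝ) + 2 * q) * r ^ 2) r := by
      fun_prop
    have g8 : ContinuousAt (fun r : ℝ => 2 * (((k + 1 : ℕ) : ℝ) + 2 * q) * r) r := by fun_prop
    exact g6.add (continuousAt_const.mul ((((g8.div g1 hne).sub ((g7.mul (g3.add g2)).div g1 hne)).mul
      g4).add ((g7.div g1 hne).mul g5)))
  have key : ∀ r, 0 < r → P' r ≤ f r := by
    intro r hr
    have w0 := ww_pos α r
    have hT : 0 < r ^ k * ww α r := mul_pos (pow_pos hr _) w0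
    have := alg (n := ((k + 1 : ℕ) : ℝ)) (m := m r) (m' := m' r) (G := G r) hr (base_pos r) hT rfl hL
      h1 h2
    have eA : r ^ k * ww α r / (1 + r ^ 2) = r ^ k * ww (α - 1) r := by
      rw [e1 r]
      have := base_pos r
      field_simp
    have eA2 : A r = r ^ k * ww α r / (1 + r ^ 2) * m r := by
      rw [eA]; simp only [hA]; ring
    simp only [hP', hf, hN]
    rw [eA2]
    have e5 : r ^ k * (ww α r * m' r ^ 2) - L * (r ^ k * (ww (α - 1) r * m r ^ 2)) =
        r ^ k * ww α r * m' r ^ 2 - L * (r ^ k * ww α r / (1 + r ^ 2) * m r ^ 2) := by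
      rw [eA]; ring
    rw [e5]
    exact this
  -- estimate
  have main : ∀ ε, 0 < ε → ε ≤ R → ε ≤ 1 →
      -(F * ε + 2 * L * (C0 * M) * ε + L * (Nb * C0 ^ 2) * ε) ≤ ∫ r in (0 : ℝ)..R, f r := by
    intro ε hε hεR hε1
    have i1 : ∀ a b : ℝ, IntervalIntegrable f volume a b := fun a b => hfc.intervalIntegrable _ _
    rw [← intervalIntegral.integral_add_adjacent_intervals (i1 0 ε) (i1 ε R)]
    have j1 : |∫ r in (0 : ℝ)..ε, f r| ≤ F * ε := by
      have := intervalIntegral.norm_integral_le_of_norm_le_const (a := (0 : ℝ)) (b := ε) (f := f)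
        (C := F) (fun x hx => by
          rw [uIoc_of_le hε.le] at hx
          exact hF x ⟨hx.1.le, hx.2.trans hεR⟩)
      rwa [Real.norm_eq_abs, sub_zero, abs_of_pos hε] at this
    have j2 : P R - P ε ≤ ∫ r in ε..R, f r := by
      have hsub : Icc ε R ⊆ Ioi 0 := fun x hx => lt_of_lt_of_le hε hx.1
      have hii : IntervalIntegrable P' volume ε R := by
        refine ContinuousOn.intervalIntegrable ?_
        rw [uIcc_of_le hεR]
        exact hP'c.mono hsub
      rw [← intervalIntegral.integral_eq_sub_of_hasDerivAt (fun r hr => hPd r (by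
        rw [uIcc_of_le hεR] at hr; exact hsub hr)) hii]
      exact intervalIntegral.integral_mono_on hεR hii (i1 _ _) fun r hr => key r (hsub hr)
    have j3 : P R = 0 := by simp [hP, hmR, hGR]
    have hεk : ε ^ (k + 1) ≤ ε := by
      calc ε ^ (k + 1) ≤ ε ^ 1 := pow_le_pow_of_le_one hε.le hε1 (by omega)
        _ = ε := pow_one _
    have j4 : |P ε| ≤ 2 * L * (C0 * M) * ε + L * (Nb * C0 ^ 2) * ε := by
      simp only [hP]
      have hGε := hGb ε ⟨hε.le, hεR⟩
      have hmε := hM ε ⟨hε.le, hεR⟩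
      rw [Real.norm_eq_abs] at hmε
      have t1 : |-(2 * L) * (G ε * m ε)| ≤ 2 * L * (C0 * M) * ε := by
        rw [abs_mul, abs_neg, abs_of_nonneg (by positivity : 0 ≤ 2 * L), abs_mul]
        have : |G ε| * |m ε| ≤ C0 * ε * M := by
          refine mul_le_mul (hGε.trans (mul_le_mul_of_nonneg_left hεk hC0')) hmε (abs_nonneg _)
            (by positivity)
        calc 2 * L * (|G ε| * |m ε|) ≤ 2 * L * (C0 * ε * M) :=
              mul_le_mul_of_nonneg_left this (by positivity)
          _ = _ := by ring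
      have t2 : |L * (N ε * (ε * (ε ^ k * ww α ε))⁻¹ * G ε ^ 2)| ≤ L * (Nb * C0 ^ 2) * ε := by
        have hN1 := hNb ε ⟨hε.le, hεR⟩
        have e9 : N ε * (ε * (ε ^ k * ww α ε))⁻¹ * G ε ^ 2 =
            (N ε * (ww α ε)⁻¹) * ((ε ^ (k + 1))⁻¹ * G ε ^ 2) := by
          have e10 : (ε * (ε ^ k * ww α ε))⁻¹ = (ww α ε)⁻¹ * (ε ^ (k + 1))⁻¹ := by
            rw [← mul_inv]; congr 1; ring
          rw [e10]; ring
        rw [e9, abs_mul, abs_of_nonneg hL, abs_mul]
        rw [Real.norm_eq_abs] at hN1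
        have hp : 0 < ε ^ (k + 1) := pow_pos hε _
        have : |(ε ^ (k + 1))⁻¹ * G ε ^ 2| ≤ C0 ^ 2 * ε := by
          rw [abs_mul, abs_of_pos (inv_pos.2 hp), abs_pow]
          have : |G ε| ^ 2 ≤ (C0 * ε ^ (k + 1)) ^ 2 := pow_le_pow_left₀ (abs_nonneg _) hGε 2
          calc (ε ^ (k + 1))⁻¹ * |G ε| ^ 2 ≤ (ε ^ (k + 1))⁻¹ * (C0 * ε ^ (k + 1)) ^ 2 :=
                mul_le_mul_of_nonneg_left this (inv_pos.2 hp).le
            _ = C0 ^ 2 * ε ^ (k + 1) := by field_simp
            _ ≤ C0 ^ 2 * ε := mul_le_mul_of_nonneg_left hεk (sq_nonneg _)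
        calc L * (|N ε * (ww α ε)⁻¹| * |(ε ^ (k + 1))⁻¹ * G ε ^ 2|)
            ≤ L * (Nb * (C0 ^ 2 * ε)) := by
              refine mul_le_mul_of_nonneg_left ?_ hL
              exact mul_le_mul hN1 this (abs_nonneg _) hNb0
          _ = _ := by ring
      exact (abs_add_le _ _).trans (add_le_add t1 t2)
    have k1 := abs_le.1 j1
    have k2 := abs_le.1 j4
    linarith [k1.1, k2.2]
  have final : 0 ≤ ∫ r in (0 : ℝ)..R, f r := by
    set K : ℝ := F + 2 * L * (C0 * M) + L * (Nb * C0 ^ 2) with hK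
    have hK0 : 0 ≤ K := by positivity
    refine le_of_forall_pos_le_add fun δ hδ => ?_
    set ε : ℝ := min (min R 1) (δ / (K + 1)) with hε
    have hε0 : 0 < ε := by
      refine lt_min (lt_min hR one_pos) (by positivity)
    have := main ε hε0 ((min_le_left _ _).trans (min_le_left _ _))
      ((min_le_left _ _).trans (min_le_right _ _))
    have h3 : K * ε ≤ δ := by
      calc K * ε ≤ K * (δ / (K + 1)) := mul_le_mul_of_nonneg_left (min_le_right _ _) hK0
        _ ≤ (K + 1) * (δ / (K + 1)) := mul_le_mul_of_nonneg_right (by linarith) (by positivity)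
        _ = δ := by field_simp
    have h4 : F * ε + 2 * L * (C0 * M) * ε + L * (Nb * C0 ^ 2) * ε = K * ε := by rw [hK]; ring
    linarith
  simp only [hf] at final
  rw [intervalIntegral.integral_sub (by
    apply Continuous.intervalIntegrable; fun_prop) (by
    apply Continuous.intervalIntegrable; fun_prop), intervalIntegral.integral_const_mul] at final
  linarith

end W2helper78.WH
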