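import Mathlib

/-!
# One-dimensional weighted inequalities for the weights `(1 + r^2)^α`
-/

set_option autoImplicit false

open MeasureTheory Set Filter Topology intervalIntegral

namespace W2helper78.WH

/-- the weight `(1 + r^2)^a` -/
noncomputable def ww (a r : ℝ) : ℝ := (1 + r ^ 2) ^ a

lemma base_pos (r : ℝ) : 0 < 1 + r ^ 2 := by positivity

lemma ww_pos (a r : ℝ) : 0 < ww a r := Real.rpow_pos_of_pos (base_pos r) a

lemma ww_cont (a : ℝ) : Continuous (ww a) := by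
  unfold ww
  exact Continuous.rpow_const (by fun_prop) fun r => Or.inl (base_pos r).ne'

lemma ww_add_one (a r : ℝ) : ww (a + 1) r = (1 + r ^ 2) * ww a r := by
  unfold ww
  rw [Real.rpow_add_one (base_pos r).ne', mul_comm]

lemma ww_deriv (a r : ℝ) : HasDerivAt (ww a) (2 * a * r * ww (a - 1) r) r := by
  have h1 : HasDerivAt (fun r : ℝ => 1 + r ^ 2) (2 * r) r := by
    have := (hasDerivAt_pow 2 r).const_add 1
    simpa using this
  have h2 := h1.rpow_const (p := a) (Or.inl (base_pos r).ne')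
  refine h2.congr_deriv ?_
  unfold ww
  ring

/-- general comparison: if `P' ≤ f` on `[a, b]` then `P b - P a ≤ ∫ f`. -/
lemma ftc_le {a b : ℝ} (hab : a ≤ b) {P P' f : ℝ → ℝ} (hP : ∀ r, HasDerivAt P (P' r) r)
    (hP' : Continuous P') (hf : Continuous f) (h : ∀ r ∈ Icc a b, P' r ≤ f r) :
    P b - P a ≤ ∫ r in a..b, f r := by
  rw [← intervalIntegral.integral_eq_sub_of_hasDerivAt (fun r _ => hP r)
    (hP'.intervalIntegrable _ _)]
  exact intervalIntegral.integral_mono_on hab (hP'.intervalIntegrable _ _)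
    (hf.intervalIntegrable _ _) h

/-- Inequality on a ray, without constraint. -/
theorem ray {n : ℕ} (hn : 1 ≤ n) {α β L R : ℝ} (hR : 0 ≤ R)
    (h1 : L ≤ 2 * β * n) (h2 : L ≤ 2 * β * (n + 2 * α - 2 - 2 * β))
    {H H' : ℝ → ℝ} (hH : ∀ r, HasDerivAt H (H' r) r) (hH' : Continuous H') (hHR : H R = 0) :
    L * ∫ r in (0 : ℝ)..R, r ^ (n - 1) * (ww (α - 1) r * H r ^ 2) ≤
      ∫ r in (0 : ℝ)..R, r ^ (n - 1) * (ww α r * H' r ^ 2) := by
  have hHc : Continuous H := continuous_iff_continuousAt.2 fun r => (hH r).continuousAt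
  obtain ⟨m, rfl⟩ : ∃ m, n = m + 1 := ⟨n - 1, by omega⟩
  simp only [Nat.add_sub_cancel]
  set P : ℝ → ℝ := fun r => -(2 * β) * (r ^ (m + 1) * ww (α - 1) r * H r ^ 2) with hP
  set P' : ℝ → ℝ := fun r => -(2 * β) * ((((m : ℝ) + 1) * r ^ m * ww (α - 1) r +
    r ^ (m + 1) * (2 * (α - 1) * r * ww (α - 1 - 1) r)) * H r ^ 2 +
    r ^ (m + 1) * ww (α - 1) r * (2 * H r * H' r)) with hP'
  have hd : ∀ r, HasDerivAt P (P' r) r := by
    intro r
    have a1 := hasDerivAt_pow (m + 1) r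
    have a2 := (a1.mul (ww_deriv (α - 1) r)).mul ((hH r).pow 2)
    refine (a2.const_mul (-(2 * β))).congr_deriv ?_
    simp only [hP', Nat.add_sub_cancel, Pi.mul_apply, Pi.pow_apply]
    push_cast
    ring
  have hc' : Continuous P' := by
    simp only [hP']
    have c1 := ww_cont (α - 1)
    have c2 := ww_cont (α - 1 - 1)
    fun_prop
  have key : ∀ r ∈ Icc (0 : ℝ) R, P' r ≤ r ^ m * (ww α r * H' r ^ 2) -
      L * (r ^ m * (ww (α - 1) r * H r ^ 2)) := by
    intro r hr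
    have e1 : ww (α - 1) r = (1 + r ^ 2) * ww (α - 1 - 1) r := by
      rw [← ww_add_one]; congr 1; ring
    have e2 : ww α r = (1 + r ^ 2) * ((1 + r ^ 2) * ww (α - 1 - 1) r) := by
      rw [← e1, ← ww_add_one]; congr 1; ring
    have hw := ww_pos (α - 1 - 1) r
    simp only [hP']
    rw [e2, e1]
    set W := ww (α - 1 - 1) r
    have hrm : 0 ≤ r ^ m := pow_nonneg hr.1 _
    have id : r ^ m * ((1 + r ^ 2) * ((1 + r ^ 2) * W) * H' r ^ 2) -
        L * (r ^ m * ((1 + r ^ 2) * W * H r ^ 2)) -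
        (-(2 * β) * ((((m : ℝ) + 1) * r ^ m * ((1 + r ^ 2) * W) +
          r ^ (m + 1) * (2 * (α - 1) * r * W)) * H r ^ 2 +
          r ^ (m + 1) * ((1 + r ^ 2) * W) * (2 * H r * H' r))) =
        (r ^ m * W) * (((1 + r ^ 2) * H' r + 2 * β * r * H r) ^ 2 +
          ((2 * β * (m + 1) - L) + r ^ 2 * (2 * β * (m + 1 + 2 * α - 2 - 2 * β) - L)) *
            H r ^ 2) := by ring
    have h1' : 0 ≤ 2 * β * (m + 1) - L := by push_cast at h1; linarith
    have h2' : 0 ≤ 2 * β * (m + 1 + 2 * α - 2 - 2 * β) - L := by push_cast at h2; linarith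
    have : 0 ≤ (r ^ m * W) * (((1 + r ^ 2) * H' r + 2 * β * r * H r) ^ 2 +
          ((2 * β * (m + 1) - L) + r ^ 2 * (2 * β * (m + 1 + 2 * α - 2 - 2 * β) - L)) *
            H r ^ 2) := by positivity
    linarith
  have c0 := ww_cont α
  have c1 := ww_cont (α - 1)
  have h := ftc_le hR hd hc' (f := fun r => r ^ m * (ww α r * H' r ^ 2) -
      L * (r ^ m * (ww (α - 1) r * H r ^ 2))) (by fun_prop) key
  have e0 : P R - P 0 = 0 := by
    simp [hP, hHR]
  rw [e0, intervalIntegral.integral_sub (by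
    apply Continuous.intervalIntegrable; fun_prop) (by
    apply Continuous.intervalIntegrable; fun_prop), intervalIntegral.integral_const_mul] at h
  linarith

/-- Inequality for the oscillation. -/
theorem osc {n : ℕ} (hn : 3 ≤ n) {α R : ℝ} (hR : 0 ≤ R)
    {H H' : ℝ → ℝ} (hH : ∀ r, HasDerivAt H (H' r) r) (hH' : Continuous H') (hHR : H R = 0) :
    -(2 * α) * ∫ r in (0 : ℝ)..R, r ^ (n - 1) * (ww (α - 1) r * H r ^ 2) ≤
      ∫ r in (0 : ℝ)..R, (r ^ (n - 1) * (ww α r * H' r ^ 2) +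
        ((n : ℝ) - 1) * (r ^ (n - 3) * (ww α r * H r ^ 2))) := by
  have hHc : Continuous H := continuous_iff_continuousAt.2 fun r => (hH r).continuousAt
  obtain ⟨m, rfl⟩ : ∃ m, n = m + 3 := ⟨n - 3, by omega⟩
  have e1 : m + 3 - 1 = m + 2 := by omega
  have e3 : m + 3 - 3 = m := by omega
  rw [e1, e3]
  set P : ℝ → ℝ := fun r => r ^ (m + 1) * ww α r * H r ^ 2 with hP
  set P' : ℝ → ℝ := fun r => (((m : ℝ) + 1) * r ^ m * ww α r +
    r ^ (m + 1) * (2 * α * r * ww (α - 1) r)) * H r ^ 2 +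
    r ^ (m + 1) * ww α r * (2 * H r * H' r) with hP'
  have hd : ∀ r, HasDerivAt P (P' r) r := by
    intro r
    have a1 := hasDerivAt_pow (m + 1) r
    have a2 := (a1.mul (ww_deriv α r)).mul ((hH r).pow 2)
    refine a2.congr_deriv ?_
    simp only [hP', Nat.add_sub_cancel, Pi.mul_apply, Pi.pow_apply]
    push_cast
    ring
  have c0 := ww_cont α
  have c1 := ww_cont (α - 1)
  have hc' : Continuous P' := by
    simp only [hP']
    fun_prop
  have key : ∀ r ∈ Icc (0 : ℝ) R, P' r ≤ (r ^ (m + 2) * (ww α r * H' r ^ 2) +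
        (((m + 3 : ℕ) : ℝ) - 1) * (r ^ m * (ww α r * H r ^ 2))) -
      -(2 * α) * (r ^ (m + 2) * (ww (α - 1) r * H r ^ 2)) := by
    intro r hr
    have hw := ww_pos α r
    simp only [hP']
    have hrm : 0 ≤ r ^ m := pow_nonneg hr.1 _
    have id : (r ^ (m + 2) * (ww α r * H' r ^ 2) +
        (((m + 3 : ℕ) : ℝ) - 1) * (r ^ m * (ww α r * H r ^ 2))) -
      -(2 * α) * (r ^ (m + 2) * (ww (α - 1) r * H r ^ 2)) -
      ((((m : ℝ) + 1) * r ^ m * ww α r +
    r ^ (m + 1) * (2 * α * r * ww (α - 1) r)) * H r ^ 2 +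
    r ^ (m + 1) * ww α r * (2 * H r * H' r)) = r ^ m * ww α r * (r * H' r - H r) ^ 2 := by
      push_cast
      ring
    have : 0 ≤ r ^ m * ww α r * (r * H' r - H r) ^ 2 := by positivity
    linarith
  have h := ftc_le hR hd hc' (f := fun r => (r ^ (m + 2) * (ww α r * H' r ^ 2) +
        (((m + 3 : ℕ) : ℝ) - 1) * (r ^ m * (ww α r * H r ^ 2))) -
      -(2 * α) * (r ^ (m + 2) * (ww (α - 1) r * H r ^ 2))) (by fun_prop) key
  have e0 : P R - P 0 = 0 := by
    simp [hP, hHR]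
  rw [e0, intervalIntegral.integral_sub (by
    apply Continuous.intervalIntegrable; fun_prop) (by
    apply Continuous.intervalIntegrable; fun_prop), intervalIntegral.integral_const_mul] at h
  linarith

end W2helper78.WH
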