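import Pool.Agent.W2helper78.WH.Bump

/-!
# Test functions
-/

set_option autoImplicit false

open MeasureTheory Set Filter Topology Metric
open scoped ContDiff

namespace W2helper78.WH

open Q94.NB Q94.NB.S98

variable {d : ℕ}

/-- the radial test function `h(|x|^2) b(|x|^2)` -/
noncomputable def tf (d : ℕ) (h : ℝ → ℝ) (l : ℝ) (x : E d) : ℝ := h (‖x‖ ^ 2) * bq l (‖x‖ ^ 2)

/-- data for the function `h` -/
structure Prof (d : ℕ) (h h' : ℝ → ℝ) : Prop where
  deriv : ∀ q, 0 ≤ q → HasDerivAt h (h' q) q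
  cont : Continuous fun r : ℝ => h (r ^ 2)
  cont' : Continuous fun r : ℝ => h' (r ^ 2)
  smooth : ContDiff ℝ ∞ fun x : E d => h (‖x‖ ^ 2)

lemma bq_cont (l : ℝ) : Continuous fun r : ℝ => bq l (r ^ 2) := by
  unfold bq
  refine BB_smooth.continuous.comp (Continuous.div_const ?_ _)
  exact Continuous.log (by fun_prop) fun r => (base_pos r).ne'

lemma bq'_cont (l : ℝ) : Continuous fun r : ℝ => bq' l (r ^ 2) := by
  unfold bq'
  refine Continuous.mul (BB'_cont.comp (Continuous.div_const ?_ _)) (Continuous.div_const ?_ _)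
  · exact Continuous.log (by fun_prop) fun r => (base_pos r).ne'
  · exact Continuous.inv₀ (by fun_prop) fun r => (base_pos r).ne'

lemma bq_far {l r : ℝ} (hl : 0 < l) (hr : Real.exp l ≤ r) : bq l (r ^ 2) = 0 := by
  refine bq_zero hl ?_
  have h2 : Real.exp l ^ 2 ≤ r ^ 2 := pow_le_pow_left₀ (Real.exp_pos _).le hr 2
  rw [← Real.exp_nat_mul] at h2
  push_cast at h2
  linarith

lemma bq'_far {l r : ℝ} (hl : 0 < l) (hr : Real.exp l ≤ r) : bq' l (r ^ 2) = 0 := by
  unfold bq'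
  rw [BB'_zero_gt, zero_mul]
  have h2 : Real.exp l ^ 2 ≤ r ^ 2 := pow_le_pow_left₀ (Real.exp_pos _).le hr 2
  rw [← Real.exp_nat_mul] at h2
  push_cast at h2
  rw [lt_div_iff₀ hl, Real.lt_log_iff_exp_lt (base_pos r)]
  linarith

variable {h h' : ℝ → ℝ}

lemma tf_smooth (hp : Prof d h h') (l : ℝ) : ContDiff ℝ ∞ (tf d h l) :=
  hp.smooth.mul (smooth_bump l)

lemma tf_cs {l : ℝ} (hl : 0 < l) : HasCompactSupport (tf d h l) := (cs_bump hl).mul_left

lemma tf_grad (hp : Prof d h h') (l : ℝ) (x : E d) :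
    gradient (tf d h l) x =
      (2 * (h' (‖x‖ ^ 2) * bq l (‖x‖ ^ 2) + h (‖x‖ ^ 2) * bq' l (‖x‖ ^ 2))) • x := by
  have h1 := (hp.deriv (‖x‖ ^ 2) (by positivity)).mul (bq_deriv l (q := ‖x‖ ^ 2) (by positivity))
  exact (grad_sq h1).gradient

lemma tf_N (hd : 1 ≤ d) (hp : Prof d h h') {l : ℝ} (hl : 0 < l) (α : ℝ) :
    NN α (tf d h l) = (sg d).real univ * ∫ r in (0 : ℝ)..Real.exp l, r ^ (d - 1) *
      (ww α r * (4 * r ^ 2 * (h' (r ^ 2) * bq l (r ^ 2) + h (r ^ 2) * bq' l (r ^ 2)) ^ 2)) := by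
  have c0 := ww_cont α
  have c1 := bq_cont l
  have c2 := bq'_cont l
  have c3 := hp.cont
  have c4 := hp.cont'
  unfold NN
  rw [← radial hd (Real.exp_pos l).le (g := fun r => ww α r * (4 * r ^ 2 *
      (h' (r ^ 2) * bq l (r ^ 2) + h (r ^ 2) * bq' l (r ^ 2)) ^ 2))
      (c0.mul ((continuous_const.mul (continuous_pow 2)).mul (((c4.mul c1).add (c3.mul c2)).pow 2)))
      (fun r hr => by simp [bq_far hl hr, bq'_far hl hr])]
  refine integral_congr_ae (Eventually.of_forall fun x => ?_)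
  show ww α ‖x‖ * ‖gradient (tf d h l) x‖ ^ 2 = _
  rw [tf_grad hp, norm_smul, mul_pow, Real.norm_eq_abs, sq_abs]
  ring

lemma tf_D (hd : 1 ≤ d) (hp : Prof d h h') {l : ℝ} (hl : 0 < l) (α : ℝ) :
    DD α (tf d h l) = (sg d).real univ * ∫ r in (0 : ℝ)..Real.exp l, r ^ (d - 1) *
      (ww (α - 1) r * (h (r ^ 2) * bq l (r ^ 2)) ^ 2) := by
  have c0 := ww_cont (α - 1)
  have c1 := bq_cont l
  have c3 := hp.cont
  unfold DD
  rw [← radial hd (Real.exp_pos l).le (g := fun r => ww (α - 1) r *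
      (h (r ^ 2) * bq l (r ^ 2)) ^ 2) (c0.mul ((c3.mul c1).pow 2))
      (fun r hr => by simp [bq_far hl hr])]
  rfl

lemma tf_M (hd : 1 ≤ d) (hp : Prof d h h') {l : ℝ} (hl : 0 < l) (α : ℝ) :
    MM α (tf d h l) = (sg d).real univ * ∫ r in (0 : ℝ)..Real.exp l, r ^ (d - 1) *
      (ww (α - 1) r * (h (r ^ 2) * bq l (r ^ 2))) := by
  have c0 := ww_cont (α - 1)
  have c1 := bq_cont l
  have c3 := hp.cont
  unfold MM
  rw [← radial hd (Real.exp_pos l).le (g := fun r => ww (α - 1) r *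
      (h (r ^ 2) * bq l (r ^ 2))) (c0.mul (c3.mul c1))
      (fun r hr => by simp [bq_far hl hr])]
  rfl

/-- derivative of `b(r^2)` -/
lemma b_deriv (l r : ℝ) : HasDerivAt (fun r : ℝ => bq l (r ^ 2)) (2 * r * bq' l (r ^ 2)) r := by
  have h1 := (bq_deriv l (q := r ^ 2) (by positivity)).comp r (hasDerivAt_pow 2 r)
  refine h1.congr_deriv ?_
  push_cast
  ring

lemma bq'_bd {l r : ℝ} (hl : 0 < l) : (1 + r ^ 2) * |bq' l (r ^ 2)| ≤ KB / l := by
  have h1 := bq'_abs hl (q := r ^ 2) (by positivity)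
  have hb := base_pos r
  calc (1 + r ^ 2) * |bq' l (r ^ 2)| ≤ (1 + r ^ 2) * (KB / (l * (1 + r ^ 2))) :=
        mul_le_mul_of_nonneg_left h1 hb.le
    _ = KB / l := by field_simp

/-- the error term -/
lemma err {n : ℕ} (hn : 1 ≤ n) {l C : ℝ} (hl : 0 < l) {F : ℝ → ℝ}
    (hF : Continuous F) (hFb : ∀ r, 0 ≤ r → F r ≤ C * ww (-(n : ℝ) / 2) r) (hC : 0 ≤ C) :
    ∫ r in (0 : ℝ)..Real.exp l, r ^ (n - 1) * F r ≤ C * (1 + l) := by
  have c0 := ww_cont (-(n : ℝ) / 2)
  have h1 : ∫ r in (0 : ℝ)..Real.exp l, r ^ (n - 1) * F r ≤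
      ∫ r in (0 : ℝ)..Real.exp l, C * (r ^ (n - 1) * ww (-(n : ℝ) / 2) r) := by
    refine intervalIntegral.integral_mono_on (Real.exp_pos l).le
      (by apply Continuous.intervalIntegrable; fun_prop)
      (by apply Continuous.intervalIntegrable; fun_prop) fun r hr => ?_
    calc r ^ (n - 1) * F r ≤ r ^ (n - 1) * (C * ww (-(n : ℝ) / 2) r) :=
          mul_le_mul_of_nonneg_left (hFb r hr.1) (pow_nonneg hr.1 _)
      _ = _ := by ring
  rw [intervalIntegral.integral_const_mul] at h1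
  exact h1.trans (mul_le_mul_of_nonneg_left (mass_le hn hl.le) hC)

/-- power profile -/
lemma prof_pow (d : ℕ) (p : ℝ) :
    Prof d (fun q => (1 + q) ^ (-p)) (fun q => -p * (1 + q) ^ (-p - 1)) where
  deriv q hq := by
    have h1 : HasDerivAt (fun q : ℝ => 1 + q) 1 q := by
      simpa using (hasDerivAt_id q).const_add 1
    have h2 := h1.rpow_const (p := -p) (Or.inl (by positivity : (1 : ℝ) + q ≠ 0))
    refine h2.congr_deriv ?_
    ring
  cont := Continuous.rpow_const (by fun_prop) fun r => Or.inl (base_pos r).ne'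
  cont' := continuous_const.mul
    (Continuous.rpow_const (by fun_prop) fun r => Or.inl (base_pos r).ne')
  smooth := smooth_pow _

/-- the profile `q - c` -/
lemma prof_quad (d : ℕ) (c : ℝ) : Prof d (fun q => q - c) (fun _ => 1) where
  deriv q hq := by simpa using (hasDerivAt_id q).sub_const c
  cont := by fun_prop
  cont' := by fun_prop
  smooth := (contDiff_norm_sq ℝ).sub contDiff_const

lemma ww_mul (a b r : ℝ) : ww a r * ww b r = ww (a + b) r := by
  unfold ww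
  rw [← Real.rpow_add (base_pos r)]

lemma ww_le_one {a : ℝ} (ha : a ≤ 0) (r : ℝ) : ww a r ≤ 1 :=
  Real.rpow_le_one_of_one_le_of_nonpos (by nlinarith [sq_nonneg r]) ha

lemma ww_mono {a b : ℝ} (hab : a ≤ b) (r : ℝ) : ww a r ≤ ww b r :=
  Real.rpow_le_rpow_of_exponent_le (by nlinarith [sq_nonneg r]) hab

/-- Case B: `α ≥ 1 + n / 2`, no constraint. -/
lemma caseB (hd : 1 ≤ d) {α l : ℝ} (hα : 1 + (d : ℝ) / 2 ≤ α) (hl : 0 < l) :
    NN α (tf d (fun q => (1 + q) ^ (-(α - 1))) l) ≤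
      2 * d * (α - 1) * DD α (tf d (fun q => (1 + q) ^ (-(α - 1))) l) +
        (sg d).real univ * (4 * (KB / l) ^ 2 * (1 + l)) := by
  have hS := sgpos hd
  rw [tf_N hd (prof_pow d (α - 1)) hl, tf_D hd (prof_pow d (α - 1)) hl]
  obtain ⟨k, rfl⟩ : ∃ k, d = k + 1 := ⟨d - 1, by omega⟩
  simp only [Nat.add_sub_cancel]
  set p := α - 1 with hpdef
  have c0 := ww_cont (-p)
  have c5 := ww_cont (-p - 1)
  have ca := ww_cont α
  have c1 := bq_cont l
  have c2 := bq'_cont l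
  have cp := ww_cont p
  set P : ℝ → ℝ := fun r => -(2 * p) * (r ^ (k + 1) * ww (-p) r * bq l (r ^ 2) ^ 2) with hP
  set P' : ℝ → ℝ := fun r => -(2 * p) * ((((k : ℝ) + 1) * r ^ k * ww (-p) r +
    r ^ (k + 1) * (2 * (-p) * r * ww (-p - 1) r)) * bq l (r ^ 2) ^ 2 +
    r ^ (k + 1) * ww (-p) r * (2 * bq l (r ^ 2) * (2 * r * bq' l (r ^ 2)))) with hP'
  have hdP : ∀ r, HasDerivAt P (P' r) r := by
    intro r
    have a1 := hasDerivAt_pow (k + 1) r
    have a2 := (a1.mul (ww_deriv (-p) r)).mul ((b_deriv l r).pow 2)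
    refine (a2.const_mul (-(2 * p))).congr_deriv ?_
    simp only [hP', Nat.add_sub_cancel, Pi.mul_apply, Pi.pow_apply]
    push_cast
    ring
  have hc' : Continuous P' := by simp only [hP']; fun_prop
  have e0 : ∫ r in (0 : ℝ)..Real.exp l, P' r = 0 := by
    rw [intervalIntegral.integral_eq_sub_of_hasDerivAt (fun r _ => hdP r)
      (hc'.intervalIntegrable _ _)]
    simp [hP, bq_far hl le_rfl]
  have hw0 : ∀ r, ww (-p) r = (1 + r ^ 2) * ww (-p - 1) r := by
    intro r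
    rw [← ww_add_one]; congr 1; ring
  have hw1 : ∀ r : ℝ, (1 + r ^ 2) ^ (-p) = ww (-p) r := fun r => rfl
  have hw2 : ∀ r : ℝ, (1 + r ^ 2) ^ (-p - 1) = ww (-p - 1) r := fun r => rfl
  -- products of weights
  have hq1 : ∀ r, ww α r * ww (-p - 1) r = 1 := by
    intro r
    rw [ww_mul]
    have : α + (-p - 1) = 0 := by rw [hpdef]; ring
    rw [this]; exact Real.rpow_zero _
  have hq2 : ∀ r, ww p r * ww (-p) r = 1 := by
    intro r
    rw [ww_mul, add_neg_cancel]; exact Real.rpow_zero _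
  have main : ∫ r in (0 : ℝ)..Real.exp l, r ^ k * (ww α r * (4 * r ^ 2 *
      (-p * (1 + r ^ 2) ^ (-p - 1) * bq l (r ^ 2) + (1 + r ^ 2) ^ (-p) * bq' l (r ^ 2)) ^ 2)) =
      ((∫ r in (0 : ℝ)..Real.exp l, P' r) + 2 * ((k + 1 : ℕ) : ℝ) * p *
      ∫ r in (0 : ℝ)..Real.exp l, r ^ k * (ww p r * ((1 + r ^ 2) ^ (-p) * bq l (r ^ 2)) ^ 2)) +
      ∫ r in (0 : ℝ)..Real.exp l, r ^ k * (4 * r ^ 2 * (1 + r ^ 2) *
        (ww (-p) r * bq' l (r ^ 2) ^ 2)) := by
    rw [← intervalIntegral.integral_const_mul, ← intervalIntegral.integral_add,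
      ← intervalIntegral.integral_add]
    · refine intervalIntegral.integral_congr fun r hr => ?_
      simp only [hP']
      rw [hw1, hw2, hw0]
      have q1 := hq1 r
      have q2 := hq2 r
      rw [hw0] at q2
      set W := ww (-p - 1) r
      set s := 1 + r ^ 2
      set b := bq l (r ^ 2)
      set b1 := bq' l (r ^ 2)
      have t1 : r ^ k * (ww α r * (4 * r ^ 2 * (-p * W * b + s * W * b1) ^ 2)) =
        (ww α r * W) * (r ^ k * (4 * r ^ 2 * W * (-p * b + s * b1) ^ 2)) := by ring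
      have t2 : r ^ k * (ww p r * (s * W * b) ^ 2) = (ww p r * (s * W)) * (r ^ k * (s * W * b ^ 2)) := by
        ring
      rw [t1, t2, q1, q2]
      push_cast
      ring
    all_goals first
      | exact hc'.intervalIntegrable _ _
      | (apply Continuous.intervalIntegrable
         try simp only [hw1]
         fun_prop)
  have herr := err (n := k + 1) (by omega) (l := l) (C := 4 * (KB / l) ^ 2) hl
    (F := fun r => 4 * r ^ 2 * (1 + r ^ 2) * (ww (-p) r * bq' l (r ^ 2) ^ 2))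
    (by fun_prop) (fun r hr => by
      have h1 := bq'_bd hl (r := r)
      have h2 : ((1 + r ^ 2) * |bq' l (r ^ 2)|) ^ 2 ≤ (KB / l) ^ 2 :=
        pow_le_pow_left₀ (by have := base_pos r; positivity) h1 2
      rw [mul_pow, sq_abs] at h2
      have h3 : ww (-p) r ≤ ww (-((k + 1 : ℕ) : ℝ) / 2) r := ww_mono (by
        rw [hpdef]; linarith) r
      have h4 := ww_pos (-p) r
      have h5 : 4 * r ^ 2 * (1 + r ^ 2) * (ww (-p) r * bq' l (r ^ 2) ^ 2) ≤
          4 * ((1 + r ^ 2) ^ 2 * bq' l (r ^ 2) ^ 2) * ww (-p) r := by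
        have : r ^ 2 * (1 + r ^ 2) ≤ (1 + r ^ 2) ^ 2 := by nlinarith [sq_nonneg r]
        have h6 : 0 ≤ 4 * (ww (-p) r * bq' l (r ^ 2) ^ 2) := by positivity
        nlinarith [mul_le_mul_of_nonneg_right this h6]
      refine h5.trans ?_
      calc 4 * ((1 + r ^ 2) ^ 2 * bq' l (r ^ 2) ^ 2) * ww (-p) r ≤ 4 * (KB / l) ^ 2 * ww (-p) r :=
            mul_le_mul_of_nonneg_right (by linarith) h4.le
        _ ≤ _ := mul_le_mul_of_nonneg_left h3 (by positivity)) (by positivity)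
  simp only [Nat.add_sub_cancel] at herr
  rw [main, e0]
  have := mul_le_mul_of_nonneg_left herr hS.le
  linarith

end W2helper78.WH
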