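import Pool.Agent.W2helper78.WH.Test

/-!
# Test functions, continued: the threshold of the essential spectrum
-/

set_option autoImplicit false

open MeasureTheory Set Filter Topology Metric
open scoped ContDiff

namespace W2helper78.WH

open Q94.NB Q94.NB.S98

variable {d : ℕ}

lemma caseA_N (hd : 1 ≤ d) {α l κ : ℝ} (hκ : κ = (d - 2 + 2 * α) / 2) (hl : 0 < l) :
    NN α (tf d (fun q => (1 + q) ^ (-(κ / 2))) l) ≤
      κ ^ 2 * DD α (tf d (fun q => (1 + q) ^ (-(κ / 2))) l) +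
        (sg d).real univ * ((4 * |κ| * (KB / l) + 4 * (KB / l) ^ 2) * (1 + l)) := by
  have hS := sgpos hd
  rw [tf_N hd (prof_pow d (κ / 2)) hl, tf_D hd (prof_pow d (κ / 2)) hl]
  set p := κ / 2 with hpdef
  have cα := ww_cont α
  have cα1 := ww_cont (α - 1)
  have cp := ww_cont (-p)
  have cp1 := ww_cont (-p - 1)
  have c1 := bq_cont l
  have c2 := bq'_cont l
  have cn := ww_cont (-(d : ℝ) / 2)
  have hw1 : ∀ r : ℝ, (1 + r ^ 2) ^ (-p) = ww (-p) r := fun r => rfl
  have hw2 : ∀ r : ℝ, (1 + r ^ 2) ^ (-p - 1) = ww (-p - 1) r := fun r => rfl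
  simp only [hw1, hw2]
  have hw0 : ∀ r, ww (-p) r = (1 + r ^ 2) * ww (-p - 1) r := by
    intro r
    rw [← ww_add_one]; congr 1; ring
  set C : ℝ := 4 * |κ| * (KB / l) + 4 * (KB / l) ^ 2 with hC
  have hK := KB_nonneg
  have hC0 : 0 ≤ C := by positivity
  have key : ∫ r in (0 : ℝ)..Real.exp l, r ^ (d - 1) * (ww α r * (4 * r ^ 2 *
      (-p * ww (-p - 1) r * bq l (r ^ 2) + ww (-p) r * bq' l (r ^ 2)) ^ 2)) ≤
      ∫ r in (0 : ℝ)..Real.exp l, (κ ^ 2 * (r ^ (d - 1) * (ww (α - 1) r *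
        (ww (-p) r * bq l (r ^ 2)) ^ 2)) + r ^ (d - 1) * (C * ww (-(d : ℝ) / 2) r)) := by
    refine intervalIntegral.integral_mono_on (Real.exp_pos l).le
      (by apply Continuous.intervalIntegrable; fun_prop)
      (by apply Continuous.intervalIntegrable; fun_prop) fun r hr => ?_
    have hr0 := pow_nonneg hr.1 (d - 1)
    -- weights
    have e1 : ww α r * (ww (-p - 1) r * ww (-p - 1) r) * (1 + r ^ 2) = ww (-(d : ℝ) / 2) r := by
      rw [ww_mul, ww_mul, mul_comm, ← ww_add_one]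
      congr 1
      rw [hpdef, hκ]; ring
    have e2 : ww (α - 1) r * (ww (-p) r * ww (-p) r) = ww (-(d : ℝ) / 2) r := by
      rw [ww_mul, ww_mul]
      congr 1
      rw [hpdef, hκ]; ring
    have hW := ww_pos (-(d : ℝ) / 2) r
    have hA : 0 < ww α r * (ww (-p - 1) r * ww (-p - 1) r) := by
      have := ww_pos α r; have := ww_pos (-p - 1) r; positivity
    have hb := bq'_bd hl (r := r)
    have hb1 := bq_nonneg l (r ^ 2)
    have hb2 := bq_le_one l (r ^ 2)
    set W := ww (-(d : ℝ) / 2) r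
    set s := 1 + r ^ 2 with hs
    set b := bq l (r ^ 2)
    set b1 := bq' l (r ^ 2)
    have hs0 : 0 < s := base_pos r
    have habs : |s * b1| ≤ KB / l := by rw [abs_mul, abs_of_pos hs0]; exact hb
    have f1 : ww α r * (4 * r ^ 2 * (-p * ww (-p - 1) r * b + ww (-p) r * b1) ^ 2) ≤
        W * (κ * b - 2 * (s * b1)) ^ 2 := by
      rw [hw0 r]
      have : ww α r * (4 * r ^ 2 * (-p * ww (-p - 1) r * b + (1 + r ^ 2) * ww (-p - 1) r * b1) ^ 2)
          = (ww α r * (ww (-p - 1) r * ww (-p - 1) r)) * r ^ 2 * (κ * b - 2 * (s * b1)) ^ 2 := by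
        rw [hs, hpdef]; ring
      rw [this, ← e1]
      refine mul_le_mul_of_nonneg_right ?_ (sq_nonneg _)
      exact mul_le_mul_of_nonneg_left (by rw [hs]; linarith) hA.le
    have f2 : (κ * b - 2 * (s * b1)) ^ 2 ≤ κ ^ 2 * b ^ 2 + C := by
      have g1 : (κ * b - 2 * (s * b1)) ^ 2 = κ ^ 2 * b ^ 2 - 4 * (κ * b) * (s * b1) +
        4 * (s * b1) ^ 2 := by ring
      have g2 : -(4 * (κ * b) * (s * b1)) ≤ 4 * |κ| * (KB / l) := by
        have : |4 * (κ * b) * (s * b1)| ≤ 4 * |κ| * (KB / l) := by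
          rw [abs_mul, abs_mul, abs_mul κ b, abs_of_nonneg hb1, abs_of_nonneg (by norm_num : (0:ℝ) ≤ 4)]
          have : |κ| * b ≤ |κ| := mul_le_of_le_one_right (abs_nonneg _) hb2
          exact mul_le_mul (by linarith) habs (abs_nonneg _) (by positivity)
        have := neg_abs_le (4 * (κ * b) * (s * b1))
        linarith
      have g3 : (s * b1) ^ 2 ≤ (KB / l) ^ 2 := by
        rw [← sq_abs]; exact pow_le_pow_left₀ (abs_nonneg _) habs 2
      rw [g1, hC]; linarith
    calc r ^ (d - 1) * (ww α r * (4 * r ^ 2 * (-p * ww (-p - 1) r * b + ww (-p) r * b1) ^ 2))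
        ≤ r ^ (d - 1) * (W * (κ ^ 2 * b ^ 2 + C)) :=
          mul_le_mul_of_nonneg_left (f1.trans (mul_le_mul_of_nonneg_left f2 hW.le)) hr0
      _ = κ ^ 2 * (r ^ (d - 1) * ((ww (α - 1) r * (ww (-p) r * ww (-p) r)) * b ^ 2)) +
          r ^ (d - 1) * (C * W) := by rw [e2]; ring
      _ = _ := by ring
  rw [intervalIntegral.integral_add (by apply Continuous.intervalIntegrable; fun_prop)
    (by apply Continuous.intervalIntegrable; fun_prop), intervalIntegral.integral_const_mul] at key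
  have e := err hd (C := C) hl (F := fun r => C * ww (-(d : ℝ) / 2) r) (by fun_prop)
    (fun r _ => le_rfl) hC0
  have := mul_le_mul_of_nonneg_left (key.trans (add_le_add_right e _)) hS.le
  refine this.trans (le_of_eq ?_)
  ring

lemma caseA_D (hd : 1 ≤ d) {α l κ : ℝ} (hκ : κ = (d - 2 + 2 * α) / 2) (hl : 2 ≤ l) :
    (sg d).real univ * ((2 : ℝ) ^ (-(d : ℝ) / 2) * (l / 2 - 1)) ≤
      DD α (tf d (fun q => (1 + q) ^ (-(κ / 2))) l) := by
  have hS := sgpos hd
  have hl0 : 0 < l := by linarith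
  rw [tf_D hd (prof_pow d (κ / 2)) hl0]
  set p := κ / 2 with hpdef
  have cα1 := ww_cont (α - 1)
  have cp := ww_cont (-p)
  have c1 := bq_cont l
  have cn := ww_cont (-(d : ℝ) / 2)
  have hw1 : ∀ r : ℝ, (1 + r ^ 2) ^ (-p) = ww (-p) r := fun r => rfl
  simp only [hw1]
  refine mul_le_mul_of_nonneg_left ((le_mass hd hl).trans ?_) hS.le
  have h1 : (1 : ℝ) ≤ Real.exp (l / 2 - 1) := Real.one_le_exp (by linarith)
  have h2 : Real.exp (l / 2 - 1) ≤ Real.exp l := Real.exp_le_exp.2 (by linarith)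
  have ii : ∀ a b : ℝ, IntervalIntegrable (fun r : ℝ => r ^ (d - 1) * (ww (α - 1) r *
      (ww (-p) r * bq l (r ^ 2)) ^ 2)) volume a b := fun a b => by
    apply Continuous.intervalIntegrable; fun_prop
  have hnn : ∀ r : ℝ, 0 ≤ r → 0 ≤ r ^ (d - 1) * (ww (α - 1) r * (ww (-p) r * bq l (r ^ 2)) ^ 2) := by
    intro r hr
    have := ww_pos (α - 1) r
    positivity
  rw [← intervalIntegral.integral_add_adjacent_intervals (ii 0 1) (ii 1 _),
    ← intervalIntegral.integral_add_adjacent_intervals (ii 1 (Real.exp (l / 2 - 1))) (ii _ _)]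
  have k1 : 0 ≤ ∫ r in (0 : ℝ)..1, r ^ (d - 1) * (ww (α - 1) r * (ww (-p) r * bq l (r ^ 2)) ^ 2) :=
    intervalIntegral.integral_nonneg zero_le_one fun r hr => hnn r hr.1
  have k2 : 0 ≤ ∫ r in (Real.exp (l / 2 - 1))..Real.exp l,
      r ^ (d - 1) * (ww (α - 1) r * (ww (-p) r * bq l (r ^ 2)) ^ 2) :=
    intervalIntegral.integral_nonneg h2 fun r hr => hnn r (by linarith [hr.1])
  have k3 : ∫ r in (1 : ℝ)..Real.exp (l / 2 - 1), r ^ (d - 1) * ww (-(d : ℝ) / 2) r =
      ∫ r in (1 : ℝ)..Real.exp (l / 2 - 1), r ^ (d - 1) * (ww (α - 1) r *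
        (ww (-p) r * bq l (r ^ 2)) ^ 2) := by
    refine intervalIntegral.integral_congr fun r hr => ?_
    rw [uIcc_of_le h1] at hr
    have hb : bq l (r ^ 2) = 1 := by
      refine bq_one hl0 (by positivity) ?_
      have : r ^ 2 ≤ Real.exp (l / 2 - 1) ^ 2 := pow_le_pow_left₀ (by linarith [hr.1]) hr.2 2
      rw [← Real.exp_nat_mul] at this
      have e1 : ((2 : ℕ) : ℝ) * (l / 2 - 1) = l - 2 := by push_cast; ring
      rw [e1] at this
      have e2 : Real.exp l = Real.exp (l - 2) * Real.exp 2 := by rw [← Real.exp_add]; congr 1; ring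
      have e3 : (3 : ℝ) ≤ Real.exp 2 := by linarith [Real.add_one_le_exp (2 : ℝ)]
      have e4 : (1 : ℝ) ≤ Real.exp (l - 2) := Real.one_le_exp (by linarith)
      nlinarith
    show r ^ (d - 1) * ww (-(d : ℝ) / 2) r = r ^ (d - 1) * (ww (α - 1) r *
        (ww (-p) r * bq l (r ^ 2)) ^ 2)
    rw [hb, mul_one, sq, ww_mul, ww_mul]
    congr 2
    rw [hpdef, hκ]; ring
  rw [k3]
  linarith

lemma caseA_M (hd : 1 ≤ d) {α l κ : ℝ} (hκ : κ = (d - 2 + 2 * α) / 2) (hκ0 : κ < 0)
    (hl : 0 < l) :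
    |MM α (tf d (fun q => (1 + q) ^ (-(κ / 2))) l)| ≤ (sg d).real univ * (1 + 1 / (-κ)) := by
  have hS := sgpos hd
  rw [tf_M hd (prof_pow d (κ / 2)) hl]
  set p := κ / 2 with hpdef
  have cα1 := ww_cont (α - 1)
  have cp := ww_cont (-p)
  have c1 := bq_cont l
  have hw1 : ∀ r : ℝ, (1 + r ^ 2) ^ (-p) = ww (-p) r := fun r => rfl
  simp only [hw1]
  have h1 : (1 : ℝ) ≤ Real.exp l := Real.one_le_exp hl.le
  have hnn : ∀ r : ℝ, 0 ≤ r → 0 ≤ r ^ (d - 1) * (ww (α - 1) r * (ww (-p) r * bq l (r ^ 2))) := by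
    intro r hr
    have := ww_pos (α - 1) r
    have := ww_pos (-p) r
    have := bq_nonneg l (r ^ 2)
    positivity
  rw [abs_mul, abs_of_pos hS, abs_of_nonneg (intervalIntegral.integral_nonneg
    (Real.exp_pos l).le fun r hr => hnn r hr.1)]
  refine mul_le_mul_of_nonneg_left ?_ hS.le
  have ii : ∀ a b : ℝ, IntervalIntegrable (fun r : ℝ => r ^ (d - 1) * (ww (α - 1) r *
      (ww (-p) r * bq l (r ^ 2)))) volume a b := fun a b => by
    apply Continuous.intervalIntegrable; fun_prop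
  rw [← intervalIntegral.integral_add_adjacent_intervals (ii 0 1) (ii 1 _)]
  -- common bound
  have hW : ∀ r : ℝ, ww (α - 1) r * (ww (-p) r * bq l (r ^ 2)) ≤ ww (-(d : ℝ) / 2 + κ / 2) r := by
    intro r
    have e : ww (α - 1) r * ww (-p) r = ww (-(d : ℝ) / 2 + κ / 2) r := by
      rw [ww_mul]; congr 1; rw [hpdef, hκ]; ring
    calc ww (α - 1) r * (ww (-p) r * bq l (r ^ 2)) = (ww (α - 1) r * ww (-p) r) * bq l (r ^ 2) := by
          ring
      _ ≤ (ww (α - 1) r * ww (-p) r) * 1 := mul_le_mul_of_nonneg_left (bq_le_one _ _)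
          (by have := ww_pos (α - 1) r; have := ww_pos (-p) r; positivity)
      _ = _ := by rw [mul_one, e]
  have hd0 : (0 : ℝ) ≤ d := Nat.cast_nonneg d
  have a1 : ∫ r in (0 : ℝ)..1, r ^ (d - 1) * (ww (α - 1) r * (ww (-p) r * bq l (r ^ 2))) ≤ 1 := by
    have := intervalIntegral.integral_mono_on (a := (0 : ℝ)) (b := 1) zero_le_one (ii 0 1)
      (intervalIntegrable_const (c := (1 : ℝ))) (fun r hr => by
        have b1 : r ^ (d - 1) ≤ 1 := pow_le_one₀ hr.1 hr.2
        have b2 := (hW r).trans (ww_le_one (by linarith) r)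
        have b3 : 0 ≤ ww (α - 1) r * (ww (-p) r * bq l (r ^ 2)) := by
          have := ww_pos (α - 1) r
          have := ww_pos (-p) r
          have := bq_nonneg l (r ^ 2)
          positivity
        calc r ^ (d - 1) * (ww (α - 1) r * (ww (-p) r * bq l (r ^ 2))) ≤ 1 * 1 :=
              mul_le_mul b1 b2 b3 zero_le_one
          _ = 1 := one_mul _)
    simpa using this
  have a2 : ∫ r in (1 : ℝ)..Real.exp l, r ^ (d - 1) * (ww (α - 1) r * (ww (-p) r * bq l (r ^ 2))) ≤
      1 / (-κ) := by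
    have i2 : IntervalIntegrable (fun r : ℝ => r ^ (κ - 1)) volume 1 (Real.exp l) := by
      refine ContinuousOn.intervalIntegrable ?_
      rw [uIcc_of_le h1]
      exact ContinuousOn.rpow_const continuousOn_id fun x hx =>
        Or.inl (lt_of_lt_of_le one_pos hx.1).ne'
    have := intervalIntegral.integral_mono_on h1 (ii 1 _) i2 (fun r hr => by
        have hr0 : 0 < r := lt_of_lt_of_le one_pos hr.1
        have b2 : ww (-(d : ℝ) / 2 + κ / 2) r ≤ (r ^ 2) ^ (-(d : ℝ) / 2 + κ / 2) :=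
          Real.rpow_le_rpow_of_nonpos (by positivity) (by linarith) (by linarith)
        calc r ^ (d - 1) * (ww (α - 1) r * (ww (-p) r * bq l (r ^ 2)))
            ≤ r ^ (d - 1) * (r ^ 2) ^ (-(d : ℝ) / 2 + κ / 2) :=
              mul_le_mul_of_nonneg_left ((hW r).trans b2) (pow_nonneg hr0.le _)
          _ = r ^ (κ - 1) := by
            rw [← Real.rpow_natCast r 2, ← Real.rpow_mul hr0.le, ← Real.rpow_natCast r (d - 1),
              ← Real.rpow_add hr0]
            congr 1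
            rw [Nat.cast_sub hd]
            push_cast
            ring)
    rw [integral_rpow (Or.inr ⟨by linarith, by
      rw [uIcc_of_le h1]
      intro h
      linarith [h.1]⟩)] at this
    refine this.trans ?_
    have e1 : κ - 1 + 1 = κ := by ring
    rw [e1, Real.one_rpow]
    have e2 : 0 ≤ Real.exp l ^ κ := Real.rpow_nonneg (Real.exp_pos _).le _
    have e3 : (Real.exp l ^ κ - 1) / κ = (1 - Real.exp l ^ κ) / (-κ) := by
      rw [div_neg, ← neg_div]
      ring
    rw [e3]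
    exact div_le_div_of_nonneg_right (by linarith) (by linarith)
  linarith

end W2helper78.WH
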