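import Pool.Agent.W2helper78.WH.TestD

/-!
# Test functions, continued: the coordinate functions
-/

set_option autoImplicit false

open MeasureTheory Set Filter Topology Metric
open scoped ContDiff

namespace W2helper78.WH

open Q94.NB Q94.NB.S98

variable {d : ℕ}

/-- the test function `x_i b(|x|^2)` -/
noncomputable def tc (d : ℕ) (i : Fin d) (l : ℝ) (x : E d) : ℝ := x i * bq l (‖x‖ ^ 2)

lemma coord_smooth (i : Fin d) : ContDiff ℝ ∞ (fun x : E d => x i) :=
  (EuclideanSpace.proj (𝕜 := ℝ) i : E d →L[ℝ] ℝ).contDiff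

lemma tc_smooth (i : Fin d) (l : ℝ) : ContDiff ℝ ∞ (tc d i l) :=
  (coord_smooth i).mul (smooth_bump l)

lemma tc_cs (i : Fin d) {l : ℝ} (hl : 0 < l) : HasCompactSupport (tc d i l) :=
  (cs_bump hl).mul_left

lemma coord_grad (i : Fin d) (x : E d) :
    HasGradientAt (fun x : E d => x i) (EuclideanSpace.single i (1 : ℝ)) x := by
  rw [hasGradientAt_iff_hasFDerivAt]
  refine ((EuclideanSpace.proj (𝕜 := ℝ) i : E d →L[ℝ] ℝ).hasFDerivAt (x := x)).congr_fderiv ?_
  ext v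
  simp [InnerProductSpace.toDual_apply_apply, EuclideanSpace.inner_single_left]

lemma tc_grad (i : Fin d) (l : ℝ) (x : E d) :
    gradient (tc d i l) x = bq l (‖x‖ ^ 2) • EuclideanSpace.single i (1 : ℝ) +
      (2 * bq' l (‖x‖ ^ 2) * x i) • x := by
  have h1 := (coord_grad i x).hasFDerivAt
  have h2 := (grad_sq (bq_deriv l (q := ‖x‖ ^ 2) (by positivity))).hasFDerivAt
  have h3 := h1.mul h2
  have h4 : HasGradientAt (tc d i l) (bq l (‖x‖ ^ 2) • EuclideanSpace.single i (1 : ℝ) +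
      (2 * bq' l (‖x‖ ^ 2) * x i) • x) x := by
    rw [hasGradientAt_iff_hasFDerivAt]
    refine h3.congr_fderiv ?_
    ext v
    simp [InnerProductSpace.toDual_apply_apply]
    ring
  exact h4.gradient

lemma tc_grad_sq (i : Fin d) (l : ℝ) (x : E d) :
    ‖gradient (tc d i l) x‖ ^ 2 = bq l (‖x‖ ^ 2) ^ 2 +
      (4 * bq l (‖x‖ ^ 2) * bq' l (‖x‖ ^ 2) + 4 * ‖x‖ ^ 2 * bq' l (‖x‖ ^ 2) ^ 2) * x i ^ 2 := by
  rw [tc_grad, norm_add_sq_real, norm_smul, norm_smul, real_inner_smul_left, real_inner_smul_right,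
    EuclideanSpace.inner_single_left, PiLp.norm_single, mul_pow, mul_pow]
  simp only [Real.norm_eq_abs, sq_abs, one_pow, mul_one, map_one, one_mul, abs_one]
  ring

lemma sum_sq (x : E d) : ∑ i, x i ^ 2 = ‖x‖ ^ 2 := by
  rw [EuclideanSpace.real_norm_sq_eq]

lemma tc_intN (α : ℝ) (i : Fin d) {l : ℝ} (hl : 0 < l) :
    Integrable (fun x : E d => ww α ‖x‖ * ‖gradient (tc d i l) x‖ ^ 2) := by
  have h1 : ContDiff ℝ 1 (tc d i l) := (tc_smooth i l).of_le (by norm_cast)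
  have hg := grad_cont h1
  obtain ⟨R, hR, hs, hs'⟩ := exists_rad (tc_cs i hl)
  have cw := ww_cont α
  refine Continuous.integrable_of_hasCompactSupport (by fun_prop) ?_
  refine HasCompactSupport.of_support_subset_isCompact (isCompact_closedBall (0 : E d) R) ?_
  intro x hx
  rw [mem_closedBall, dist_zero_right]
  by_contra h
  exact hx (by simp [hs' x (not_le.1 h).le])

lemma tc_intD (α : ℝ) (i : Fin d) {l : ℝ} (hl : 0 < l) :
    Integrable (fun x : E d => ww (α - 1) ‖x‖ * tc d i l x ^ 2) := by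
  have h1 : Continuous (tc d i l) := (tc_smooth i l).continuous
  obtain ⟨R, hR, hs, hs'⟩ := exists_rad (tc_cs i hl)
  have cw := ww_cont (α - 1)
  refine Continuous.integrable_of_hasCompactSupport (by fun_prop) ?_
  refine HasCompactSupport.of_support_subset_isCompact (isCompact_closedBall (0 : E d) R) ?_
  intro x hx
  rw [mem_closedBall, dist_zero_right]
  by_contra h
  exact hx (by simp [hs x (not_le.1 h).le])

lemma tc_N (hd : 1 ≤ d) (α : ℝ) {l : ℝ} (hl : 0 < l) :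
    ∑ i, NN α (tc d i l) = (sg d).real univ * ∫ r in (0 : ℝ)..Real.exp l, r ^ (d - 1) *
      (ww α r * (d * bq l (r ^ 2) ^ 2 + 4 * r ^ 2 * (bq l (r ^ 2) * bq' l (r ^ 2)) +
        4 * r ^ 4 * bq' l (r ^ 2) ^ 2)) := by
  have c0 := ww_cont α
  have c1 := bq_cont l
  have c2 := bq'_cont l
  unfold NN
  rw [← integral_finsetSum _ (fun i _ => tc_intN α i hl)]
  rw [← radial hd (Real.exp_pos l).le (g := fun r => ww α r * (d * bq l (r ^ 2) ^ 2 +
      4 * r ^ 2 * (bq l (r ^ 2) * bq' l (r ^ 2)) + 4 * r ^ 4 * bq' l (r ^ 2) ^ 2))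
      (by fun_prop)
      (fun r hr => by simp [bq_far hl hr, bq'_far hl hr])]
  refine integral_congr_ae (Eventually.of_forall fun x => ?_)
  show ∑ i, ww α ‖x‖ * ‖gradient (tc d i l) x‖ ^ 2 = _
  simp_rw [tc_grad_sq]
  rw [← Finset.mul_sum, Finset.sum_add_distrib, ← Finset.mul_sum, sum_sq, Finset.sum_const,
    Finset.card_univ, Fintype.card_fin, nsmul_eq_mul]
  ring

lemma tc_D (hd : 1 ≤ d) (α : ℝ) {l : ℝ} (hl : 0 < l) :
    ∑ i, DD α (tc d i l) = (sg d).real univ * ∫ r in (0 : ℝ)..Real.exp l, r ^ (d - 1) *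
      (ww (α - 1) r * (r ^ 2 * bq l (r ^ 2) ^ 2)) := by
  have c0 := ww_cont (α - 1)
  have c1 := bq_cont l
  unfold DD
  rw [← integral_finsetSum _ (fun i _ => tc_intD α i hl)]
  rw [← radial hd (Real.exp_pos l).le (g := fun r => ww (α - 1) r * (r ^ 2 * bq l (r ^ 2) ^ 2))
      (by fun_prop)
      (fun r hr => by simp [bq_far hl hr])]
  refine integral_congr_ae (Eventually.of_forall fun x => ?_)
  show ∑ i, ww (α - 1) ‖x‖ * tc d i l x ^ 2 = _
  simp_rw [tc, mul_pow]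
  rw [← Finset.mul_sum, ← Finset.sum_mul, sum_sq]

lemma tc_M (α : ℝ) (i : Fin d) (l : ℝ) : MM α (tc d i l) = 0 := by
  unfold MM
  have h := integral_neg_eq_self (fun x : E d => ww (α - 1) ‖x‖ * tc d i l x) volume
  have h2 : ∫ x : E d, ww (α - 1) ‖-x‖ * tc d i l (-x) =
      -∫ x : E d, ww (α - 1) ‖x‖ * tc d i l x := by
    rw [← integral_neg]
    refine integral_congr_ae (Eventually.of_forall fun x => ?_)
    simp [tc]
  rw [h2] at h
  linarith

/-- Case C: the coordinate functions. -/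
lemma caseC_N (hd : 1 ≤ d) {α l : ℝ} (hα : α ≤ -(d : ℝ) / 2) (hl : 0 < l) :
    ∑ i, NN α (tc d i l) ≤ -(2 * α) * ∑ i, DD α (tc d i l) +
      (sg d).real univ * (4 * (KB / l) ^ 2 * (1 + l)) := by
  have hS := sgpos hd
  rw [tc_N hd α hl, tc_D hd α hl]
  obtain ⟨k, rfl⟩ : ∃ k, d = k + 1 := ⟨d - 1, by omega⟩
  simp only [Nat.add_sub_cancel]
  have cα := ww_cont α
  have cα1 := ww_cont (α - 1)
  have c1 := bq_cont l
  have c2 := bq'_cont l
  set P : ℝ → ℝ := fun r => r ^ (k + 1) * ww α r * bq l (r ^ 2) ^ 2 with hP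
  set P' : ℝ → ℝ := fun r => (((k : ℝ) + 1) * r ^ k * ww α r +
    r ^ (k + 1) * (2 * α * r * ww (α - 1) r)) * bq l (r ^ 2) ^ 2 +
    r ^ (k + 1) * ww α r * (2 * bq l (r ^ 2) * (2 * r * bq' l (r ^ 2))) with hP'
  have hdP : ∀ r, HasDerivAt P (P' r) r := by
    intro r
    have a1 := hasDerivAt_pow (k + 1) r
    have a2 := (a1.mul (ww_deriv α r)).mul ((b_deriv l r).pow 2)
    refine a2.congr_deriv ?_
    simp only [hP', Nat.add_sub_cancel, Pi.mul_apply, Pi.pow_apply]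
    push_cast
    ring
  have hc' : Continuous P' := by simp only [hP']; fun_prop
  have e0 : ∫ r in (0 : ℝ)..Real.exp l, P' r = 0 := by
    rw [intervalIntegral.integral_eq_sub_of_hasDerivAt (fun r _ => hdP r)
      (hc'.intervalIntegrable _ _)]
    simp [hP, bq_far hl le_rfl]
  have main : ∫ r in (0 : ℝ)..Real.exp l, r ^ k * (ww α r * (((k + 1 : ℕ) : ℝ) * bq l (r ^ 2) ^ 2 +
      4 * r ^ 2 * (bq l (r ^ 2) * bq' l (r ^ 2)) + 4 * r ^ 4 * bq' l (r ^ 2) ^ 2)) =
      ((∫ r in (0 : ℝ)..Real.exp l, P' r) + -(2 * α) *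
      ∫ r in (0 : ℝ)..Real.exp l, r ^ k * (ww (α - 1) r * (r ^ 2 * bq l (r ^ 2) ^ 2))) +
      ∫ r in (0 : ℝ)..Real.exp l, r ^ k * (ww α r * (4 * r ^ 4 * bq' l (r ^ 2) ^ 2)) := by
    rw [← intervalIntegral.integral_const_mul, ← intervalIntegral.integral_add,
      ← intervalIntegral.integral_add]
    · refine intervalIntegral.integral_congr fun r hr => ?_
      simp only [hP']
      push_cast
      ring
    all_goals first
      | exact hc'.intervalIntegrable _ _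
      | (apply Continuous.intervalIntegrable
         fun_prop)
  have herr := err (n := k + 1) (by omega) (l := l) (C := 4 * (KB / l) ^ 2) hl
    (F := fun r => ww α r * (4 * r ^ 4 * bq' l (r ^ 2) ^ 2))
    (by fun_prop) (fun r hr => by
      have hs := base_pos r
      have h1 := bq'_bd hl (r := r)
      have h2 : ((1 + r ^ 2) * |bq' l (r ^ 2)|) ^ 2 ≤ (KB / l) ^ 2 :=
        pow_le_pow_left₀ (by positivity) h1 2
      rw [mul_pow, sq_abs] at h2
      have h3 : ww α r ≤ ww (-((k + 1 : ℕ) : ℝ) / 2) r := ww_mono hα r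
      have h4 := ww_pos α r
      have h5 : r ^ 4 ≤ (1 + r ^ 2) ^ 2 := by nlinarith [sq_nonneg r]
      calc ww α r * (4 * r ^ 4 * bq' l (r ^ 2) ^ 2)
          = r ^ 4 * (4 * ww α r * bq' l (r ^ 2) ^ 2) := by ring
        _ ≤ (1 + r ^ 2) ^ 2 * (4 * ww α r * bq' l (r ^ 2) ^ 2) :=
            mul_le_mul_of_nonneg_right h5 (by positivity)
        _ = ((1 + r ^ 2) ^ 2 * bq' l (r ^ 2) ^ 2) * (4 * ww α r) := by ring
        _ ≤ (KB / l) ^ 2 * (4 * ww α r) := mul_le_mul_of_nonneg_right h2 (by positivity)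
        _ = 4 * (KB / l) ^ 2 * ww α r := by ring
        _ ≤ _ := mul_le_mul_of_nonneg_left h3 (by positivity)) (by positivity)
  simp only [Nat.add_sub_cancel] at herr
  rw [main, e0]
  have := mul_le_mul_of_nonneg_left herr hS.le
  linarith

lemma caseC_D (hd : 1 ≤ d) {α l : ℝ} (hl : 1 ≤ l) :
    (sg d).real univ * (∫ r in (0 : ℝ)..1, r ^ (d - 1) * (ww (α - 1) r * r ^ 2)) ≤
      ∑ i, DD α (tc d i l) := by
  have hS := sgpos hd
  have hl0 : 0 < l := by linarith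
  rw [tc_D hd α hl0]
  have cα1 := ww_cont (α - 1)
  have c1 := bq_cont l
  refine mul_le_mul_of_nonneg_left ?_ hS.le
  have h1 : (1 : ℝ) ≤ Real.exp l := Real.one_le_exp hl0.le
  have ii : ∀ a b : ℝ, IntervalIntegrable (fun r : ℝ => r ^ (d - 1) * (ww (α - 1) r *
      (r ^ 2 * bq l (r ^ 2) ^ 2))) volume a b := fun a b => by
    apply Continuous.intervalIntegrable; fun_prop
  rw [← intervalIntegral.integral_add_adjacent_intervals (ii 0 1) (ii 1 _)]
  have k2 : 0 ≤ ∫ r in (1 : ℝ)..Real.exp l,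
      r ^ (d - 1) * (ww (α - 1) r * (r ^ 2 * bq l (r ^ 2) ^ 2)) :=
    intervalIntegral.integral_nonneg h1 fun r hr => by
      have := ww_pos (α - 1) r
      have : 0 ≤ r := by linarith [hr.1]
      positivity
  have k3 : ∫ r in (0 : ℝ)..1, r ^ (d - 1) * (ww (α - 1) r * r ^ 2) =
      ∫ r in (0 : ℝ)..1, r ^ (d - 1) * (ww (α - 1) r * (r ^ 2 * bq l (r ^ 2) ^ 2)) := by
    refine intervalIntegral.integral_congr fun r hr => ?_
    rw [uIcc_of_le zero_le_one] at hr
    show r ^ (d - 1) * (ww (α - 1) r * r ^ 2) =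
      r ^ (d - 1) * (ww (α - 1) r * (r ^ 2 * bq l (r ^ 2) ^ 2))
    rw [bq_near hl hr.1 hr.2, one_pow, mul_one]
  rw [k3]
  linarith

lemma caseB_D (hd : 1 ≤ d) {α l p : ℝ} (hl : 1 ≤ l) :
    (sg d).real univ * (∫ r in (0 : ℝ)..1, r ^ (d - 1) * (ww (α - 1) r * ww (-p) r ^ 2)) ≤
      DD α (tf d (fun q => (1 + q) ^ (-p)) l) := by
  have hS := sgpos hd
  have hl0 : 0 < l := by linarith
  rw [tf_D hd (prof_pow d p) hl0]
  have hw1 : ∀ r : ℝ, (1 + r ^ 2) ^ (-p) = ww (-p) r := fun r => rfl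
  simp only [hw1]
  have cα1 := ww_cont (α - 1)
  have cp := ww_cont (-p)
  have c1 := bq_cont l
  refine mul_le_mul_of_nonneg_left ?_ hS.le
  have h1 : (1 : ℝ) ≤ Real.exp l := Real.one_le_exp hl0.le
  have ii : ∀ a b : ℝ, IntervalIntegrable (fun r : ℝ => r ^ (d - 1) * (ww (α - 1) r *
      (ww (-p) r * bq l (r ^ 2)) ^ 2)) volume a b := fun a b => by
    apply Continuous.intervalIntegrable; fun_prop
  rw [← intervalIntegral.integral_add_adjacent_intervals (ii 0 1) (ii 1 _)]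
  have k2 : 0 ≤ ∫ r in (1 : ℝ)..Real.exp l,
      r ^ (d - 1) * (ww (α - 1) r * (ww (-p) r * bq l (r ^ 2)) ^ 2) :=
    intervalIntegral.integral_nonneg h1 fun r hr => by
      have := ww_pos (α - 1) r
      have : 0 ≤ r := by linarith [hr.1]
      positivity
  have k3 : ∫ r in (0 : ℝ)..1, r ^ (d - 1) * (ww (α - 1) r * ww (-p) r ^ 2) =
      ∫ r in (0 : ℝ)..1, r ^ (d - 1) * (ww (α - 1) r * (ww (-p) r * bq l (r ^ 2)) ^ 2) := by
    refine intervalIntegral.integral_congr fun r hr => ?_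
    rw [uIcc_of_le zero_le_one] at hr
    show r ^ (d - 1) * (ww (α - 1) r * ww (-p) r ^ 2) =
      r ^ (d - 1) * (ww (α - 1) r * (ww (-p) r * bq l (r ^ 2)) ^ 2)
    rw [bq_near hl hr.1 hr.2, mul_one]
  rw [k3]
  linarith

end W2helper78.WH
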