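import Pool.Agent.W2helper78.WH.TestA

/-!
# Test functions, continued: the quadratic eigenfunction and the coordinate functions
-/

set_option autoImplicit false

open MeasureTheory Set Filter Topology Metric
open scoped ContDiff

namespace W2helper78.WH

open Q94.NB Q94.NB.S98

variable {d : ℕ}

lemma caseD_N (hd : 1 ≤ d) {α l c L : ℝ} (hα : α ≤ -((d : ℝ) + 2) / 2) (hL : L = -4 * α - 2 * d)
    (hc : L * c = 2 * d) (hc0 : 0 ≤ c) (hl : 0 < l) :
    NN α (tf d (fun q => q - c) l) ≤ L * DD α (tf d (fun q => q - c) l) +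
      (sg d).real univ * (4 * (KB / l) ^ 2 * (1 + c) ^ 2 * (1 + l)) := by
  have hS := sgpos hd
  rw [tf_N hd (prof_quad d c) hl, tf_D hd (prof_quad d c) hl]
  obtain ⟨k, rfl⟩ : ∃ k, d = k + 1 := ⟨d - 1, by omega⟩
  simp only [Nat.add_sub_cancel]
  have cα := ww_cont α
  have cα1 := ww_cont (α - 1)
  have c1 := bq_cont l
  have c2 := bq'_cont l
  set P : ℝ → ℝ := fun r => 2 * (r ^ (k + 1) * ww α r * (r ^ 2 - c) * bq l (r ^ 2) ^ 2) with hP
  set P' : ℝ → ℝ := fun r => 2 * (((((k : ℝ) + 1) * r ^ k * ww α r +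
    r ^ (k + 1) * (2 * α * r * ww (α - 1) r)) * (r ^ 2 - c) +
    r ^ (k + 1) * ww α r * (2 * r)) * bq l (r ^ 2) ^ 2 +
    r ^ (k + 1) * ww α r * (r ^ 2 - c) * (2 * bq l (r ^ 2) * (2 * r * bq' l (r ^ 2)))) with hP'
  have hdP : ∀ r, HasDerivAt P (P' r) r := by
    intro r
    have a1 := hasDerivAt_pow (k + 1) r
    have a2 := ((a1.mul (ww_deriv α r)).mul ((hasDerivAt_pow 2 r).sub_const c)).mul
      ((b_deriv l r).pow 2)
    refine (a2.const_mul 2).congr_deriv ?_
    simp only [hP', Nat.add_sub_cancel, Pi.mul_apply, Pi.pow_apply]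
    push_cast
    ring
  have hc' : Continuous P' := by simp only [hP']; fun_prop
  have e0 : ∫ r in (0 : ℝ)..Real.exp l, P' r = 0 := by
    rw [intervalIntegral.integral_eq_sub_of_hasDerivAt (fun r _ => hdP r)
      (hc'.intervalIntegrable _ _)]
    simp [hP, bq_far hl le_rfl]
  have hw0 : ∀ r, ww α r = (1 + r ^ 2) * ww (α - 1) r := by
    intro r
    rw [← ww_add_one]; congr 1; ring
  have main : ∫ r in (0 : ℝ)..Real.exp l, r ^ k * (ww α r * (4 * r ^ 2 *
      (1 * bq l (r ^ 2) + (r ^ 2 - c) * bq' l (r ^ 2)) ^ 2)) =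
      ((∫ r in (0 : ℝ)..Real.exp l, P' r) + L *
      ∫ r in (0 : ℝ)..Real.exp l, r ^ k * (ww (α - 1) r * ((r ^ 2 - c) * bq l (r ^ 2)) ^ 2)) +
      ∫ r in (0 : ℝ)..Real.exp l, r ^ k * (4 * r ^ 2 * (r ^ 2 - c) ^ 2 * (1 + r ^ 2) *
        (ww (α - 1) r * bq' l (r ^ 2) ^ 2)) := by
    rw [← intervalIntegral.integral_const_mul, ← intervalIntegral.integral_add,
      ← intervalIntegral.integral_add]
    · refine intervalIntegral.integral_congr fun r hr => ?_
      simp only [hP']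
      rw [hw0]
      set W := ww (α - 1) r
      set b := bq l (r ^ 2)
      set b1 := bq' l (r ^ 2)
      have hL' : L = -4 * α - 2 * (k + 1) := by rw [hL]; push_cast; ring
      have hc2 : L * c = 2 * (k + 1) := by rw [hc]; push_cast; ring
      have id : r ^ k * ((1 + r ^ 2) * W * (4 * r ^ 2 * (1 * b + (r ^ 2 - c) * b1) ^ 2)) -
        (2 * (((((k : ℝ) + 1) * r ^ k * ((1 + r ^ 2) * W) +
          r ^ (k + 1) * (2 * α * r * W)) * (r ^ 2 - c) +
          r ^ (k + 1) * ((1 + r ^ 2) * W) * (2 * r)) * b ^ 2 +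
          r ^ (k + 1) * ((1 + r ^ 2) * W) * (r ^ 2 - c) * (2 * b * (2 * r * b1))) +
        L * (r ^ k * (W * ((r ^ 2 - c) * b) ^ 2)) +
        r ^ k * (4 * r ^ 2 * (r ^ 2 - c) ^ 2 * (1 + r ^ 2) * (W * b1 ^ 2))) =
        r ^ k * W * b ^ 2 * (r ^ 2 - c) * (L * c - 2 * (k + 1) +
          r ^ 2 * ((-4 * α - 2 * (k + 1)) - L)) := by ring
      rw [hc2, ← hL'] at id
      have id2 : r ^ k * W * b ^ 2 * (r ^ 2 - c) * (2 * ((k : ℝ) + 1) - 2 * (k + 1) +
          r ^ 2 * (L - L)) = 0 := by ring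
      rw [id2] at id
      linarith
    all_goals first
      | exact hc'.intervalIntegrable _ _
      | (apply Continuous.intervalIntegrable
         fun_prop)
  have herr := err (n := k + 1) (by omega) (l := l) (C := 4 * (KB / l) ^ 2 * (1 + c) ^ 2) hl
    (F := fun r => 4 * r ^ 2 * (r ^ 2 - c) ^ 2 * (1 + r ^ 2) *
        (ww (α - 1) r * bq' l (r ^ 2) ^ 2))
    (by fun_prop) (fun r hr => by
      have hs := base_pos r
      have h1 := bq'_bd hl (r := r)
      have h2 : ((1 + r ^ 2) * |bq' l (r ^ 2)|) ^ 2 ≤ (KB / l) ^ 2 :=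
        pow_le_pow_left₀ (by positivity) h1 2
      rw [mul_pow, sq_abs] at h2
      have h3 : (1 + r ^ 2) * ww α r ≤ ww (-((k + 1 : ℕ) : ℝ) / 2) r := by
        rw [← ww_add_one]
        exact ww_mono (by push_cast at hα ⊢; linarith) r
      have h4 := ww_pos (α - 1) r
      have h5 : (r ^ 2 - c) ^ 2 ≤ (1 + c) ^ 2 * (1 + r ^ 2) ^ 2 := by
        rw [← mul_pow, ← sq_abs (r ^ 2 - c)]
        refine pow_le_pow_left₀ (abs_nonneg _) ?_ 2
        rw [abs_le]
        constructor <;> nlinarith [sq_nonneg r, mul_nonneg hc0 (sq_nonneg r)]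
      have h6 : r ^ 2 ≤ 1 + r ^ 2 := by linarith
      calc 4 * r ^ 2 * (r ^ 2 - c) ^ 2 * (1 + r ^ 2) * (ww (α - 1) r * bq' l (r ^ 2) ^ 2)
          = (r ^ 2) * ((r ^ 2 - c) ^ 2) * (4 * (1 + r ^ 2) * ww (α - 1) r * bq' l (r ^ 2) ^ 2) := by
            ring
        _ ≤ (1 + r ^ 2) * ((1 + c) ^ 2 * (1 + r ^ 2) ^ 2) *
            (4 * (1 + r ^ 2) * ww (α - 1) r * bq' l (r ^ 2) ^ 2) := by
            refine mul_le_mul_of_nonneg_right ?_ (by positivity)
            exact mul_le_mul h6 h5 (sq_nonneg _) hs.le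
        _ = 4 * ((1 + r ^ 2) ^ 2 * bq' l (r ^ 2) ^ 2) * (1 + c) ^ 2 *
            ((1 + r ^ 2) * ((1 + r ^ 2) * ww (α - 1) r)) := by ring
        _ ≤ 4 * (KB / l) ^ 2 * (1 + c) ^ 2 * ((1 + r ^ 2) * ((1 + r ^ 2) * ww (α - 1) r)) := by
            refine mul_le_mul_of_nonneg_right ?_ (by positivity)
            exact mul_le_mul_of_nonneg_right (by linarith) (sq_nonneg _)
        _ ≤ _ := by
            rw [← hw0]
            exact mul_le_mul_of_nonneg_left h3 (by positivity)) (by positivity)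
  simp only [Nat.add_sub_cancel] at herr
  rw [main, e0]
  have := mul_le_mul_of_nonneg_left herr hS.le
  linarith

lemma bq_near {l r : ℝ} (hl : 1 ≤ l) (hr0 : 0 ≤ r) (hr : r ≤ 1) : bq l (r ^ 2) = 1 := by
  refine bq_one (by linarith) (by positivity) ?_
  have h1 : r ^ 2 ≤ 1 := by nlinarith
  have h2 : l + 1 ≤ Real.exp l := Real.add_one_le_exp l
  linarith

lemma caseD_D (hd : 1 ≤ d) {α l c : ℝ} (hl : 1 ≤ l) :
    (sg d).real univ * (∫ r in (0 : ℝ)..1, r ^ (d - 1) * (ww (α - 1) r * (r ^ 2 - c) ^ 2)) ≤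
      DD α (tf d (fun q => q - c) l) := by
  have hS := sgpos hd
  have hl0 : 0 < l := by linarith
  rw [tf_D hd (prof_quad d c) hl0]
  have cα1 := ww_cont (α - 1)
  have c1 := bq_cont l
  refine mul_le_mul_of_nonneg_left ?_ hS.le
  have h1 : (1 : ℝ) ≤ Real.exp l := Real.one_le_exp hl0.le
  have ii : ∀ a b : ℝ, IntervalIntegrable (fun r : ℝ => r ^ (d - 1) * (ww (α - 1) r *
      ((r ^ 2 - c) * bq l (r ^ 2)) ^ 2)) volume a b := fun a b => by
    apply Continuous.intervalIntegrable; fun_prop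
  rw [← intervalIntegral.integral_add_adjacent_intervals (ii 0 1) (ii 1 _)]
  have k2 : 0 ≤ ∫ r in (1 : ℝ)..Real.exp l,
      r ^ (d - 1) * (ww (α - 1) r * ((r ^ 2 - c) * bq l (r ^ 2)) ^ 2) :=
    intervalIntegral.integral_nonneg h1 fun r hr => by
      have := ww_pos (α - 1) r
      have : 0 ≤ r := by linarith [hr.1]
      positivity
  have k3 : ∫ r in (0 : ℝ)..1, r ^ (d - 1) * (ww (α - 1) r * (r ^ 2 - c) ^ 2) =
      ∫ r in (0 : ℝ)..1, r ^ (d - 1) * (ww (α - 1) r * ((r ^ 2 - c) * bq l (r ^ 2)) ^ 2) := by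
    refine intervalIntegral.integral_congr fun r hr => ?_
    rw [uIcc_of_le zero_le_one] at hr
    show r ^ (d - 1) * (ww (α - 1) r * (r ^ 2 - c) ^ 2) =
      r ^ (d - 1) * (ww (α - 1) r * ((r ^ 2 - c) * bq l (r ^ 2)) ^ 2)
    rw [bq_near hl hr.1 hr.2, mul_one]
  rw [k3]
  linarith

lemma caseD_M (hd : 1 ≤ d) {α l c L : ℝ} (hα : α ≤ -((d : ℝ) + 2) / 2) (hL : L = -4 * α - 2 * d)
    (hc : L * c = 2 * d) (hL0 : 0 < L) (hl : 0 < l) :
    |MM α (tf d (fun q => q - c) l)| ≤
      (sg d).real univ * (4 / L * (KB / l * Real.exp (-l) * (1 + l))) := by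
  have hS := sgpos hd
  have hK := KB_nonneg
  rw [tf_M hd (prof_quad d c) hl]
  obtain ⟨k, rfl⟩ : ∃ k, d = k + 1 := ⟨d - 1, by omega⟩
  simp only [Nat.add_sub_cancel]
  have cα := ww_cont α
  have cα1 := ww_cont (α - 1)
  have c1 := bq_cont l
  have c2 := bq'_cont l
  set P : ℝ → ℝ := fun r => 2 * (r ^ (k + 1) * ww α r * bq l (r ^ 2)) with hP
  set P' : ℝ → ℝ := fun r => 2 * ((((k : ℝ) + 1) * r ^ k * ww α r +
    r ^ (k + 1) * (2 * α * r * ww (α - 1) r)) * bq l (r ^ 2) +
    r ^ (k + 1) * ww α r * (2 * r * bq' l (r ^ 2))) with hP'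
  have hdP : ∀ r, HasDerivAt P (P' r) r := by
    intro r
    have a1 := hasDerivAt_pow (k + 1) r
    have a2 := (a1.mul (ww_deriv α r)).mul (b_deriv l r)
    refine (a2.const_mul 2).congr_deriv ?_
    simp only [hP', Nat.add_sub_cancel, Pi.mul_apply]
    push_cast
    ring
  have hc' : Continuous P' := by simp only [hP']; fun_prop
  have e0 : ∫ r in (0 : ℝ)..Real.exp l, P' r = 0 := by
    rw [intervalIntegral.integral_eq_sub_of_hasDerivAt (fun r _ => hdP r)
      (hc'.intervalIntegrable _ _)]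
    simp [hP, bq_far hl le_rfl]
  have hw0 : ∀ r, ww α r = (1 + r ^ 2) * ww (α - 1) r := by
    intro r
    rw [← ww_add_one]; congr 1; ring
  have main : L * ∫ r in (0 : ℝ)..Real.exp l, r ^ k * (ww (α - 1) r * ((r ^ 2 - c) * bq l (r ^ 2))) =
      4 * (∫ r in (0 : ℝ)..Real.exp l, r ^ k * (r ^ 2 * ww α r * bq' l (r ^ 2))) -
        ∫ r in (0 : ℝ)..Real.exp l, P' r := by
    rw [← intervalIntegral.integral_const_mul, ← intervalIntegral.integral_const_mul,
      ← intervalIntegral.integral_sub]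
    · refine intervalIntegral.integral_congr fun r hr => ?_
      simp only [hP']
      rw [hw0]
      set W := ww (α - 1) r
      set b := bq l (r ^ 2)
      set b1 := bq' l (r ^ 2)
      have hL' : L = -4 * α - 2 * (k + 1) := by rw [hL]; push_cast; ring
      have hc2 : L * c = 2 * (k + 1) := by rw [hc]; push_cast; ring
      have id : L * (r ^ k * (W * ((r ^ 2 - c) * b))) = r ^ k * W * b * (L * r ^ 2 - L * c) := by
        ring
      rw [id, hc2, hL']
      ring
    all_goals first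
      | exact hc'.intervalIntegrable _ _
      | (apply Continuous.intervalIntegrable
         fun_prop)
  rw [e0, sub_zero] at main
  have main2 : ∫ r in (0 : ℝ)..Real.exp l, r ^ k * (ww (α - 1) r * ((r ^ 2 - c) * bq l (r ^ 2))) =
      4 / L * ∫ r in (0 : ℝ)..Real.exp l, r ^ k * (r ^ 2 * ww α r * bq' l (r ^ 2)) := by
    rw [div_mul_eq_mul_div, eq_div_iff hL0.ne', mul_comm _ L, main]
  rw [main2, abs_mul, abs_of_pos hS, abs_mul, abs_of_pos (by positivity : 0 < 4 / L)]
  refine mul_le_mul_of_nonneg_left (mul_le_mul_of_nonneg_left ?_ (by positivity)) hS.le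
  refine (intervalIntegral.abs_integral_le_integral_abs (Real.exp_pos l).le).trans ?_
  have herr := err (n := k + 1) (by omega) (l := l) (C := KB / l * Real.exp (-l)) hl
    (F := fun r => r ^ 2 * ww α r * |bq' l (r ^ 2)|)
    (by
      have := c2.abs
      fun_prop) (fun r hr => by
      show r ^ 2 * ww α r * |bq' l (r ^ 2)| ≤ _
      have hs := base_pos r
      have h1 := bq'_bd hl (r := r)
      have h3 : (1 + r ^ 2) * ww α r ≤ ww (-((k + 1 : ℕ) : ℝ) / 2) r := by
        rw [← ww_add_one]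
        exact ww_mono (by push_cast at hα ⊢; linarith) r
      have h4 := ww_pos α r
      have hWp := ww_pos (-((k + 1 : ℕ) : ℝ) / 2) r
      by_cases hbig : 1 + r ^ 2 < Real.exp l
      · rw [bq'_zero hl (by positivity) hbig, abs_zero, mul_zero]
        positivity
      · have hbig' : Real.exp l ≤ 1 + r ^ 2 := not_lt.1 hbig
        have h5 : 1 ≤ (1 + r ^ 2) * Real.exp (-l) := by
          rw [Real.exp_neg]
          rw [← div_eq_mul_inv, le_div_iff₀ (Real.exp_pos l), one_mul]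
          exact hbig'
        calc r ^ 2 * ww α r * |bq' l (r ^ 2)|
            ≤ (1 + r ^ 2) * ww α r * |bq' l (r ^ 2)| :=
              mul_le_mul_of_nonneg_right (mul_le_mul_of_nonneg_right (by linarith) h4.le)
                (abs_nonneg _)
          _ = ((1 + r ^ 2) * |bq' l (r ^ 2)|) * ww α r := by ring
          _ ≤ (KB / l) * ww α r := mul_le_mul_of_nonneg_right h1 h4.le
          _ ≤ (KB / l) * (((1 + r ^ 2) * Real.exp (-l)) * ww α r) := by
              refine mul_le_mul_of_nonneg_left ?_ (by positivity)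
              exact le_mul_of_one_le_left h4.le h5
          _ = (KB / l * Real.exp (-l)) * ((1 + r ^ 2) * ww α r) := by ring
          _ ≤ _ := mul_le_mul_of_nonneg_left h3 (by positivity)) (by positivity)
  simp only [Nat.add_sub_cancel] at herr
  refine le_trans (le_of_eq ?_) herr
  refine intervalIntegral.integral_congr fun r hr => ?_
  rw [uIcc_of_le (Real.exp_pos l).le] at hr
  show |r ^ k * (r ^ 2 * ww α r * bq' l (r ^ 2))| = r ^ k * (r ^ 2 * ww α r * |bq' l (r ^ 2)|)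
  have h4 := (ww_pos α r).le
  rw [abs_mul, abs_mul, abs_of_nonneg (pow_nonneg hr.1 k), abs_of_nonneg (by positivity :
    0 ≤ r ^ 2 * ww α r)]

end W2helper78.WH
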