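import Pool.Agent.W2helper78.WH.TestC

/-!
# Upper bounds from approximate minimisers
-/

set_option autoImplicit false

open MeasureTheory Set Filter Topology Metric
open scoped ContDiff

namespace W2helper78.WH

open Q94.NB Q94.NB.S98

variable {d : ℕ}

/-- continuous functions vanishing outside a ball have compact support -/
lemma cs_of {f : E d → ℝ} {R : ℝ} (h : ∀ x, R ≤ ‖x‖ → f x = 0) : HasCompactSupport f := by
  refine HasCompactSupport.of_support_subset_isCompact (isCompact_closedBall (0 : E d) R) ?_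
  intro x hx
  rw [mem_closedBall, dist_zero_right]
  by_contra h'
  exact hx (h x (not_le.1 h').le)

lemma int_N (α : ℝ) {u : E d → ℝ} (hu : ContDiff ℝ 1 u) (hc : HasCompactSupport u) :
    Integrable (fun x : E d => ww α ‖x‖ * ‖gradient u x‖ ^ 2) := by
  have hg := grad_cont hu
  obtain ⟨R, hR, hs, hs'⟩ := exists_rad hc
  have cw := ww_cont α
  exact Continuous.integrable_of_hasCompactSupport (by fun_prop)
    (cs_of (R := R) fun x hx => by simp [hs' x hx])

lemma int_D (α : ℝ) {u : E d → ℝ} (hu : Continuous u) (hc : HasCompactSupport u) :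
    Integrable (fun x : E d => ww (α - 1) ‖x‖ * u x ^ 2) := by
  obtain ⟨R, hR, hs, hs'⟩ := exists_rad hc
  have cw := ww_cont (α - 1)
  exact Continuous.integrable_of_hasCompactSupport (by fun_prop)
    (cs_of (R := R) fun x hx => by simp [hs x hx])

lemma int_M (α : ℝ) {u : E d → ℝ} (hu : Continuous u) (hc : HasCompactSupport u) :
    Integrable (fun x : E d => ww (α - 1) ‖x‖ * u x) := by
  obtain ⟨R, hR, hs, hs'⟩ := exists_rad hc
  have cw := ww_cont (α - 1)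
  exact Continuous.integrable_of_hasCompactSupport (by fun_prop)
    (cs_of (R := R) fun x hx => by simp [hs x hx])

lemma DD_pos (α : ℝ) {u : E d → ℝ} (hu : Continuous u) (hc : HasCompactSupport u) (h : u ≠ 0) :
    0 < DD α u := by
  obtain ⟨x, hx⟩ := Function.ne_iff.1 h
  obtain ⟨R, hR, hs, hs'⟩ := exists_rad hc
  have cw := ww_cont (α - 1)
  unfold DD
  refine Continuous.integral_pos_of_hasCompactSupport_nonneg_nonzero (x := x) (by fun_prop)
    (cs_of (R := R) fun x hx => by simp [hs x hx]) (fun y => ?_) ?_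
  · have := ww_pos (α - 1) ‖y‖
    show 0 ≤ ww (α - 1) ‖y‖ * u y ^ 2
    positivity
  · have := ww_pos (α - 1) ‖x‖
    have h2 : u x ≠ 0 := hx
    exact mul_ne_zero this.ne' (pow_ne_zero 2 h2)

lemma NN_nonneg (α : ℝ) (u : E d → ℝ) : 0 ≤ NN α u :=
  integral_nonneg fun _ => mul_nonneg (ww_pos _ _).le (sq_nonneg _)

lemma DD_nonneg (α : ℝ) (u : E d → ℝ) : 0 ≤ DD α u :=
  integral_nonneg fun _ => mul_nonneg (ww_pos _ _).le (sq_nonneg _)

/-- approximate minimisers -/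
def Approx (d : ℕ) (α L : ℝ) : Prop :=
  ∀ ε : ℝ, 0 < ε → ∃ u : E d → ℝ, ContDiff ℝ ∞ u ∧ HasCompactSupport u ∧ 0 < DD α u ∧
    NN α u ≤ (L + ε) * DD α u ∧ MM α u ^ 2 ≤ ε * DD α u

lemma le_zero_of {g K : ℝ} (h : ∀ δ : ℝ, 0 < δ → g ≤ δ * K) : g ≤ 0 := by
  by_contra hg
  have hg : 0 < g := not_le.1 hg
  have h1 := h (g / (2 * (|K| + 1))) (by positivity)
  have h2 : g / (2 * (|K| + 1)) * K ≤ g / (2 * (|K| + 1)) * (|K| + 1) :=
    mul_le_mul_of_nonneg_left (by linarith [le_abs_self K]) (by positivity)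
  have h3 : g / (2 * (|K| + 1)) * (|K| + 1) = g / 2 := by
    have : |K| + 1 ≠ 0 := by positivity
    field_simp
  linarith

/-- the bump used for the correction of the mean -/
noncomputable def eta (d : ℕ) (x : E d) : ℝ := bq 1 (‖x‖ ^ 2)

lemma eta_smooth (d : ℕ) : ContDiff ℝ ∞ (eta d) := smooth_bump 1

lemma eta_cs (d : ℕ) : HasCompactSupport (eta d) := cs_bump one_pos

lemma eta_M (d : ℕ) (α : ℝ) : 0 < MM α (eta d) := by
  obtain ⟨R, hR, hs, hs'⟩ := exists_rad (eta_cs d)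
  have cw := ww_cont (α - 1)
  have ce := (eta_smooth d).continuous
  unfold MM
  refine Continuous.integral_pos_of_hasCompactSupport_nonneg_nonzero (x := 0) (by fun_prop)
    (cs_of (R := R) fun x hx => by simp [hs x hx]) (fun y => ?_) ?_
  · have := ww_pos (α - 1) ‖y‖
    have := bq_nonneg 1 (‖y‖ ^ 2)
    show 0 ≤ ww (α - 1) ‖y‖ * bq 1 (‖y‖ ^ 2)
    positivity
  · have h1 := ww_pos (α - 1) ‖(0 : E d)‖
    have h2 : eta d 0 = 1 := by
      unfold eta
      refine bq_one one_pos (by positivity) ?_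
      simp
    show ww (α - 1) ‖(0 : E d)‖ * eta d 0 ≠ 0
    rw [h2, mul_one]
    exact h1.ne'

lemma pw_N {F : Type*} [NormedAddCommGroup F] [InnerProductSpace ℝ F] (a b : F) {ε : ℝ}
    (hε : 0 < ε) (t : ℝ) :
    ‖a - t • b‖ ^ 2 ≤ (1 + ε) * ‖a‖ ^ 2 + (1 + ε⁻¹) * t ^ 2 * ‖b‖ ^ 2 := by
  rw [norm_sub_sq_real, norm_smul, real_inner_smul_right, mul_pow, Real.norm_eq_abs, sq_abs]
  have h1 : |inner ℝ a b| ≤ ‖a‖ * ‖b‖ := abs_real_inner_le_norm a b
  have h2 : -(t * inner ℝ a b) ≤ |t| * (‖a‖ * ‖b‖) := by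
    calc -(t * inner ℝ a b) ≤ |t * inner ℝ a b| := neg_le_abs _
      _ = |t| * |inner ℝ a b| := abs_mul _ _
      _ ≤ _ := mul_le_mul_of_nonneg_left h1 (abs_nonneg _)
  have h3 : 2 * (|t| * (‖a‖ * ‖b‖)) ≤ ε * ‖a‖ ^ 2 + ε⁻¹ * (t ^ 2 * ‖b‖ ^ 2) := by
    have h4 : 0 ≤ ε⁻¹ * (ε * ‖a‖ - |t| * ‖b‖) ^ 2 := by positivity
    have h5 : ε⁻¹ * (ε * ‖a‖ - |t| * ‖b‖) ^ 2 =
        ε * ‖a‖ ^ 2 - 2 * (|t| * (‖a‖ * ‖b‖)) + ε⁻¹ * (|t| ^ 2 * ‖b‖ ^ 2) := by
      field_simp
      ring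
    rw [sq_abs] at h5
    linarith
  linarith

lemma pw_D (a b : ℝ) {ε : ℝ} (hε : 0 < ε) (t : ℝ) :
    (1 - ε) * a ^ 2 - ε⁻¹ * t ^ 2 * b ^ 2 ≤ (a - t * b) ^ 2 := by
  have h4 : 0 ≤ ε⁻¹ * (ε * a - t * b) ^ 2 := by positivity
  have h5 : ε⁻¹ * (ε * a - t * b) ^ 2 = ε * a ^ 2 - 2 * (a * (t * b)) + ε⁻¹ * t ^ 2 * b ^ 2 := by
    field_simp
    ring
  nlinarith [sq_nonneg (t * b)]

section corr

variable {α : ℝ} {u v : E d → ℝ} (hu : ContDiff ℝ ∞ u) (hc : HasCompactSupport u)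
  (hv : ContDiff ℝ ∞ v) (hcv : HasCompactSupport v)

include hu hv in
lemma corr_grad (t : ℝ) (x : E d) :
    gradient (fun x => u x - t * v x) x = gradient u x - t • gradient v x := by
  have h1 := (hu.differentiable (by simp) x).hasGradientAt.hasFDerivAt
  have h2 := (hv.differentiable (by simp) x).hasGradientAt.hasFDerivAt
  have h3 := h1.sub (h2.const_mul t)
  have h4 : HasGradientAt (fun x => u x - t * v x) (gradient u x - t • gradient v x) x := by
    rw [hasGradientAt_iff_hasFDerivAt]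
    refine h3.congr_fderiv ?_
    ext w
    simp
  exact h4.gradient

include hu hv in
lemma corr_smooth (t : ℝ) : ContDiff ℝ ∞ (fun x => u x - t * v x) :=
  hu.sub (contDiff_const.mul hv)

include hc hcv in
lemma corr_cs (t : ℝ) : HasCompactSupport (fun x => u x - t * v x) := by
  obtain ⟨R, hR, hs, hs'⟩ := exists_rad hc
  obtain ⟨R2, hR2, hs2, hs2'⟩ := exists_rad hcv
  refine cs_of (R := max R R2) fun x hx => ?_
  rw [hs x ((le_max_left _ _).trans hx), hs2 x ((le_max_right _ _).trans hx)]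
  simp

include hu hc hv hcv

lemma corr_M (t : ℝ) : MM α (fun x => u x - t * v x) = MM α u - t * MM α v := by
  unfold MM
  rw [← integral_const_mul, ← integral_sub (int_M α hu.continuous hc)
    ((int_M α hv.continuous hcv).const_mul t)]
  refine integral_congr_ae (Eventually.of_forall fun x => ?_)
  show ww (α - 1) ‖x‖ * (u x - t * v x) = _
  ring

lemma corr_N {ε : ℝ} (hε : 0 < ε) (t : ℝ) :
    NN α (fun x => u x - t * v x) ≤ (1 + ε) * NN α u + (1 + ε⁻¹) * t ^ 2 * NN α v := by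
  have hu1 : ContDiff ℝ 1 u := hu.of_le (by norm_cast)
  have hv1 : ContDiff ℝ 1 v := hv.of_le (by norm_cast)
  have hw1 : ContDiff ℝ 1 (fun x => u x - t * v x) := (corr_smooth hu hv t).of_le (by norm_cast)
  have i1 := int_N α hu1 hc
  have i2 := int_N α hv1 hcv
  have i3 := int_N α hw1 (corr_cs hc hcv t)
  unfold NN
  rw [← integral_const_mul, ← integral_const_mul, ← integral_add (i1.const_mul _)
    (i2.const_mul _)]
  refine integral_mono i3 ((i1.const_mul _).add (i2.const_mul _)) fun x => ?_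
  show ww α ‖x‖ * ‖gradient (fun x => u x - t * v x) x‖ ^ 2 ≤
    (1 + ε) * (ww α ‖x‖ * ‖gradient u x‖ ^ 2) +
      (1 + ε⁻¹) * t ^ 2 * (ww α ‖x‖ * ‖gradient v x‖ ^ 2)
  rw [corr_grad hu hv]
  have := mul_le_mul_of_nonneg_left (pw_N (gradient u x) (gradient v x) hε t) (ww_pos α ‖x‖).le
  linarith

lemma corr_D {ε : ℝ} (hε : 0 < ε) (t : ℝ) :
    (1 - ε) * DD α u - ε⁻¹ * t ^ 2 * DD α v ≤ DD α (fun x => u x - t * v x) := by
  have i1 := int_D α hu.continuous hc
  have i2 := int_D α hv.continuous hcv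
  have i3 := int_D α (corr_smooth hu hv t).continuous (corr_cs hc hcv t)
  unfold DD
  rw [← integral_const_mul, ← integral_const_mul, ← integral_sub (i1.const_mul _)
    (i2.const_mul _)]
  refine integral_mono ((i1.const_mul _).sub (i2.const_mul _)) i3 fun x => ?_
  show (1 - ε) * (ww (α - 1) ‖x‖ * u x ^ 2) - ε⁻¹ * t ^ 2 * (ww (α - 1) ‖x‖ * v x ^ 2) ≤
    ww (α - 1) ‖x‖ * (u x - t * v x) ^ 2
  have := mul_le_mul_of_nonneg_left (pw_D (u x) (v x) hε t) (ww_pos (α - 1) ‖x‖).le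
  linarith

end corr

/-- Upper bound without constraint. -/
theorem upper_free {α L L' : ℝ} (hap : ∀ ε : ℝ, 0 < ε → ∃ u : E d → ℝ, ContDiff ℝ ∞ u ∧
      HasCompactSupport u ∧ 0 < DD α u ∧ NN α u ≤ (L + ε) * DD α u)
    (h : ∀ v : E d → ℝ, ContDiff ℝ ∞ v → HasCompactSupport v → L' * DD α v ≤ NN α v) :
    L' ≤ L := by
  refine le_of_forall_pos_le_add fun ε hε => ?_
  obtain ⟨u, hu, hc, hD, hN⟩ := hap ε hε
  exact le_of_mul_le_mul_right ((h u hu hc).trans hN) hD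

/-- Upper bound with the mean-zero constraint. -/
theorem upper_mean {α L L' : ℝ} (hL : 0 ≤ L) (hap : Approx d α L)
    (h : ∀ v : E d → ℝ, ContDiff ℝ ∞ v → HasCompactSupport v → MM α v = 0 →
      L' * DD α v ≤ NN α v) : L' ≤ L := by
  rcases le_total L' 0 with hL' | hL'
  · exact hL'.trans hL
  have hM := eta_M d α
  have key : ∀ ε : ℝ, 0 < ε → L' * (1 - ε) - (1 + ε) * L ≤ 0 := by
    intro ε hε
    refine le_zero_of (K := (1 + ε) + (1 + ε⁻¹) * (MM α (eta d))⁻¹ ^ 2 * NN α (eta d) +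
      L' * ε⁻¹ * (MM α (eta d))⁻¹ ^ 2 * DD α (eta d)) fun δ hδ => ?_
    obtain ⟨u, hu, hc, hD, hN, hMu⟩ := hap δ hδ
    set t := MM α u * (MM α (eta d))⁻¹ with ht
    have ht2 : t ^ 2 ≤ δ * DD α u * (MM α (eta d))⁻¹ ^ 2 := by
      rw [ht, mul_pow]
      exact mul_le_mul_of_nonneg_right hMu (sq_nonneg _)
    have h1 := h _ (corr_smooth hu (eta_smooth d) t) (corr_cs hc (eta_cs d) t) (by
      rw [corr_M hu hc (eta_smooth d) (eta_cs d), ht]
      field_simp
      ring)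
    have h2 := corr_N (α := α) hu hc (eta_smooth d) (eta_cs d) hε t
    have h3 := corr_D (α := α) hu hc (eta_smooth d) (eta_cs d) hε t
    have h4 := mul_le_mul_of_nonneg_left h3 hL'
    have h5 : (1 + ε) * NN α u ≤ (1 + ε) * ((L + δ) * DD α u) :=
      mul_le_mul_of_nonneg_left hN (by positivity)
    have h6 : (1 + ε⁻¹) * t ^ 2 * NN α (eta d) ≤
        (1 + ε⁻¹) * (δ * DD α u * (MM α (eta d))⁻¹ ^ 2) * NN α (eta d) :=
      mul_le_mul_of_nonneg_right (mul_le_mul_of_nonneg_left ht2 (by positivity)) (NN_nonneg _ _)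
    have h7 : L' * (ε⁻¹ * t ^ 2 * DD α (eta d)) ≤
        L' * (ε⁻¹ * (δ * DD α u * (MM α (eta d))⁻¹ ^ 2) * DD α (eta d)) :=
      mul_le_mul_of_nonneg_left (mul_le_mul_of_nonneg_right
        (mul_le_mul_of_nonneg_left ht2 (by positivity)) (DD_nonneg _ _)) hL'
    refine le_of_mul_le_mul_right ?_ hD
    linarith
  have key2 : L' - L ≤ 0 := le_zero_of (K := L' + L) fun δ hδ => by
    have := key δ hδ
    linarith
  linarith

end W2helper78.WH
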